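import Pool.Agent.Helper48.MG.Defs2

/-!
# MG block B, part 1: restrictions, finite sequences of countable ordinals, the Kunen relation
-/

set_option autoImplicit false

namespace Pool.Agent.Helper48.MG

variable {M : Type} [ZFM M]
variable {α β γ δ : Type} [Cl M α] [Cl M β] [Cl M γ] [Cl M δ]

/-! ### restrictions -/

theorem IWf.restr {Z : IFun M (W M × W M) Prop} (h : IWf Z) (g : W M) : IWf (restr Z g) := by
  intro P hP
  obtain ⟨x, hx, hx'⟩ := h P hP
  exact ⟨x, hx, fun y hy => hx' y hy.2.2⟩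

/-- the ranks of the nodes below `g` form an initial segment -/
theorem exists_rk_eq_restr {Z : IFun M (W M × W M) Prop} {g x : W M}
    (h : Rkd (W M) (restr Z g) x) (hx : x < g) {a : W M} (ha : a ≤ rk (W M) (restr Z g) x) :
    ∃ y, y < g ∧ Rkd (W M) (restr Z g) y ∧ rk (W M) (restr Z g) y = a := by
  have h1 : IF M (fun b : W M => ∃ x, x < g ∧ Rkd (W M) (restr Z g) x ∧
    rk (W M) (restr Z g) x = b ∧ a ≤ b) := by fun_prop
  obtain ⟨b, ⟨y, hyg, hy, hyb, hab⟩, hmin⟩ := IWO.least (M := M) _ h1 ⟨_, x, hx, h, rfl, ha⟩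
  refine ⟨y, hyg, hy, ?_⟩
  rw [hyb]
  by_contra hne
  have hlt : a < b := lt_of_le_of_ne hab fun h => hne h.symm
  have h2 : ¬ rk (W M) (restr Z g) y ≤ a := by rw [hyb]; exact not_le.2 hlt
  rw [rk_le_iff hy] at h2
  push Not at h2
  obtain ⟨z, hz, hz'⟩ := h2
  have h3 := hmin (rk (W M) (restr Z g) z) ⟨z, hz.1, hy.below hz, rfl, hz'⟩
  have h4 := rk_lt hy hz
  rw [hyb] at h4
  exact not_le.2 h4 h3

/-- the restrictions of a wellfounded relation have countable ranks -/
theorem IWf.rkd_restr {Z : IFun M (W M × W M) Prop} (h : IWf Z) (g x : W M) :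
    Rkd (W M) (MG.restr Z g) x := by
  by_contra hcon
  obtain ⟨x, hx, hx'⟩ := h.restr g (lam (fun x => ¬ Rkd (W M) (MG.restr Z g) x) (by fun_prop)) ⟨x, hcon⟩
  obtain ⟨f, hf⟩ := exists_cov_W g
  have h1 : IF M (fun n => rk (W M) (MG.restr Z g) (f n)) := by fun_prop
  obtain ⟨b, hb⟩ := not_cov_W ⟨_, h1⟩
  apply hx
  refine (RL.intro (a := b) fun y hy => ?_ : RL (MG.restr Z g) x b).rkd
  have hy' : Rkd (W M) (MG.restr Z g) y := not_not.1 (hx' y hy)
  refine ⟨rk (W M) (MG.restr Z g) y, ?_, hy'.rl⟩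
  by_contra hlt
  obtain ⟨z, hzg, _, hz⟩ := exists_rk_eq_restr hy' hy.1 (not_lt.1 hlt)
  obtain ⟨n, hn⟩ := hf z hzg.le
  exact hb n (by show rk (W M) (MG.restr Z g) (f n) = b; rw [hn, hz])

/-! ### codes of finite sequences in `ω_1` -/

theorem exists_cW : ∃ f : IFun M (N M) (W M) → N M → W M,
    IF M (fun q : IFun M (N M) (W M) × N M => f q.1 q.2) ∧
    (∀ x, f x 0 = w0 M) ∧ ∀ x n, f x (sc n) = pw (f x n) (x n) := by
  obtain ⟨f, hf, h0, hs⟩ := N.exists_rec (M := M) (γ := IFun M (N M) (W M)) (β := W M)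
    (fun _ => w0 M) (fun x n c => pw c (x n)) (by fun_prop) (by fun_prop)
  exact ⟨f, hf, h0, hs⟩

/-- the code of the restriction of the sequence `x` to the numbers below `n` -/
noncomputable def cW (x : IFun M (N M) (W M)) (n : N M) : W M :=
  Classical.choose (exists_cW (M := M)) x n

@[fun_prop] theorem IF.cW {f : α → IFun M (N M) (W M)} {g : α → N M} (hf : IF M f) (hg : IF M g) :
    IF M (fun x => cW (f x) (g x)) :=
  (Classical.choose_spec (exists_cW (M := M))).1.comp (hf.prodMk hg)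

theorem cW_zero (x : IFun M (N M) (W M)) : cW x 0 = w0 M :=
  (Classical.choose_spec (exists_cW (M := M))).2.1 x
theorem cW_sc (x : IFun M (N M) (W M)) (n : N M) : cW x (sc n) = pw (cW x n) (x n) :=
  (Classical.choose_spec (exists_cW (M := M))).2.2 x n

/-- two codes are equal iff the lengths and the restrictions are equal -/
theorem cW_eq_iff {x y : IFun M (N M) (W M)} {n m : N M} :
    cW x n = cW y m ↔ n = m ∧ ∀ k, k < n → x k = y k := by
  have h1 : ∀ n m : N M, cW x n = cW y m → n = m ∧ ∀ k, k < n → x k = y k := by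
    refine N.ind _ (by fun_prop) ?_ ?_
    · intro m h
      rcases N.zero_or_sc m with rfl | ⟨m, rfl⟩
      · exact ⟨rfl, fun k hk => (N.not_lt_zero k hk).elim⟩
      · rw [cW_zero, cW_sc] at h
        exact (pw_ne h.symm).elim
    · intro n ih m h
      rcases N.zero_or_sc m with rfl | ⟨m, rfl⟩
      · rw [cW_zero, cW_sc] at h
        exact (pw_ne h).elim
      · rw [cW_sc, cW_sc] at h
        obtain ⟨h2, h3⟩ := pw_inj h
        obtain ⟨rfl, h4⟩ := ih m h2
        refine ⟨rfl, fun k hk => ?_⟩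
        rcases lt_or_eq_of_le (N.lt_sc.1 hk) with h5 | rfl
        · exact h4 k h5
        · exact h3
  have h2 : ∀ n : N M, (∀ k, k < n → x k = y k) → cW x n = cW y n := by
    refine N.ind _ (by fun_prop) ?_ ?_
    · intro _; rw [cW_zero, cW_zero]
    · intro n ih h
      rw [cW_sc, cW_sc, ih fun k hk => h k (hk.trans (N.lt_sc_self n)), h n (N.lt_sc_self n)]
  constructor
  · exact h1 n m
  · rintro ⟨rfl, h⟩; exact h2 n h

/-! ### the real of a sequence of countable ordinals -/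

open Classical in
/-- the real coding the relation `X i < X j` on `N` -/
noncomputable def oc (X : IFun M (N M) (W M)) : Re M :=
  lam (fun m => if ∃ i j, m = pr i j ∧ X i < X j then (0 : N M) else sc 0) (by fun_prop)

@[fun_prop] theorem IF.oc {f : α → IFun M (N M) (W M)} (hf : IF M f) :
    IF M (fun x => oc (f x)) := by
  unfold MG.oc; fun_prop

theorem rel_oc {X : IFun M (N M) (W M)} {i j : N M} : rel (oc X) (i, j) ↔ X i < X j := by
  classical
  show (if ∃ i' j', pr i j = pr i' j' ∧ X i' < X j' then (0 : N M) else sc 0) = 0 ↔ _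
  by_cases h : ∃ i' j', pr i j = pr i' j' ∧ X i' < X j'
  · rw [if_pos h]
    obtain ⟨i', j', h1, h2⟩ := h
    obtain ⟨rfl, rfl⟩ := pr_inj h1
    simp [h2]
  · rw [if_neg h]
    constructor
    · intro h1; exact (N.sc_ne_zero _ h1).elim
    · intro h1; exact (h ⟨i, j, rfl, h1⟩).elim

theorem WF_oc (X : IFun M (N M) (W M)) : WF (oc X) := by
  rw [WF_iff]
  rintro P ⟨k, hk⟩
  obtain ⟨a, ⟨l, hl, hla⟩, hmin⟩ := IWO.least (M := M) (fun a : W M => ∃ l, P l ∧ X l = a)
    (by fun_prop) ⟨_, k, hk, rfl⟩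
  refine ⟨l, hl, fun j hj hPj => ?_⟩
  have h1 := rel_oc.1 hj
  rw [hla] at h1
  exact not_le.2 h1 (hmin _ ⟨j, hPj, rfl⟩)

/-- the numbers `a, b` with `pr a b < n` are bounded -/
theorem exists_pr_bound (n : N M) : ∃ m, ∀ a b : N M, pr a b < n → a < m ∧ b < m := by
  refine N.ind (fun n => ∃ m, ∀ a b : N M, pr a b < n → a < m ∧ b < m) (by fun_prop) ?_ ?_ n
  · exact ⟨0, fun a b h => (N.not_lt_zero _ h).elim⟩
  · rintro n ⟨m, hm⟩
    by_cases h : ∃ a b : N M, pr a b = n
    · obtain ⟨a, b, hab⟩ := h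
      refine ⟨max m (max (sc a) (sc b)), fun a' b' h => ?_⟩
      rcases lt_or_eq_of_le (N.lt_sc.1 h) with h | h
      · obtain ⟨h1, h2⟩ := hm a' b' h
        exact ⟨lt_of_lt_of_le h1 (le_max_left _ _), lt_of_lt_of_le h2 (le_max_left _ _)⟩
      · obtain ⟨rfl, rfl⟩ := pr_inj (h.trans hab.symm)
        exact ⟨lt_of_lt_of_le (N.lt_sc_self _) ((le_max_left _ _).trans (le_max_right _ _)),
          lt_of_lt_of_le (N.lt_sc_self _) ((le_max_right _ _).trans (le_max_right _ _))⟩
    · refine ⟨m, fun a b h' => ?_⟩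
      rcases lt_or_eq_of_le (N.lt_sc.1 h') with h' | h'
      · exact hm a b h'
      · exact (h ⟨a, b, h'⟩).elim

theorem oc_congr {X Y : IFun M (N M) (W M)} {m n : N M}
    (hm : ∀ a b : N M, pr a b < n → a < m ∧ b < m) (h : ∀ i, i < m → Y i = X i) :
    cd (oc Y) n = cd (oc X) n := by
  classical
  rw [cd_eq_iff]
  refine ⟨rfl, fun k hk => ?_⟩
  show (if ∃ i j, k = pr i j ∧ Y i < Y j then (0 : N M) else sc 0) =
    (if ∃ i j, k = pr i j ∧ X i < X j then (0 : N M) else sc 0)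
  have : (∃ i j, k = pr i j ∧ Y i < Y j) ↔ (∃ i j, k = pr i j ∧ X i < X j) := by
    refine exists_congr fun i => exists_congr fun j => and_congr_right fun hij => ?_
    obtain ⟨h1, h2⟩ := hm i j (hij ▸ hk)
    rw [h i h1, h j h2]
  simp only [this]

/-- the ranks of the relation of a sequence whose range is an initial segment -/
theorem rk_oc {X : IFun M (N M) (W M)} (hX : ∀ k c, c < X k → ∃ l, X l = c) (k : N M) :
    rk (W M) (rel (oc X)) k = X k := by
  have key : ∀ a : W M, ∀ k, X k = a → rk (W M) (rel (oc X)) k = a := by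
    by_contra hcon
    push Not at hcon
    obtain ⟨a, ⟨k, hk, hk'⟩, hmin⟩ := IWO.least (M := M)
      (fun a : W M => ∃ k, X k = a ∧ rk (W M) (rel (oc X)) k ≠ a) (by fun_prop) hcon
    have ih : ∀ l, X l < a → rk (W M) (rel (oc X)) l = X l := by
      intro l hl
      by_contra h
      exact not_le.2 hl (hmin _ ⟨l, rfl, h⟩)
    have hwf := WF_oc X k
    apply hk'
    refine le_antisymm ?_ ?_
    · rw [rk_le_iff hwf]
      intro l hl
      have h1 : X l < a := by rw [← hk]; exact rel_oc.1 hl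
      rw [ih l h1]; exact h1
    · by_contra hlt
      rw [not_le] at hlt
      obtain ⟨l, hl⟩ := hX k _ (by rw [hk]; exact hlt)
      have h2 : rel (oc X) (l, k) := rel_oc.2 (by rw [hl, hk]; exact hlt)
      have h3 := rk_lt hwf h2
      rw [ih l (by rw [hl]; exact hlt), hl] at h3
      exact lt_irrefl _ h3
  exact key _ k rfl

/-- the norm of a sequence onto the ordinals below a limit ordinal -/
theorem nrm_oc {X : IFun M (N M) (W M)} {g : W M} (hX : ∀ c, (∃ k, X k = c) ↔ c < g)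
    (hs : ∀ a, a < g → sW a < g) : nrm (oc X) = g := by
  have h1 : ∀ k, rk (W M) (rel (oc X)) k = X k :=
    rk_oc fun k c hc => (hX c).2 (hc.trans ((hX _).1 ⟨k, rfl⟩))
  refine le_antisymm ?_ ?_
  · rw [(WF_oc X).nrm_le_iff]
    intro k
    rw [h1]
    exact ((hX _).1 ⟨k, rfl⟩).le
  · by_contra hlt
    rw [not_le] at hlt
    obtain ⟨k, hk⟩ := (hX _).2 (hs _ hlt)
    have h2 := (WF_oc X).rk_le_nrm k
    rw [h1, hk] at h2
    exact not_le.2 (lt_sW_self _) h2

/-- there are sequences onto the ordinals below `g` -/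
theorem exists_onto_below {g : W M} (h0 : w0 M < g) :
    ∃ X : IFun M (N M) (W M), ∀ c, (∃ k, X k = c) ↔ c < g := by
  classical
  obtain ⟨f, hf⟩ := exists_cov_W g
  have h1 : IF M (fun n : N M => if f n < g then f n else w0 M) := by fun_prop
  refine ⟨⟨_, h1⟩, fun c => ⟨?_, fun hc => ?_⟩⟩
  · rintro ⟨k, rfl⟩
    show (if f k < g then f k else w0 M) < g
    split_ifs with h
    · exact h
    · exact h0
  · obtain ⟨k, hk⟩ := hf c hc.le
    exact ⟨k, by show (if f k < g then f k else w0 M) = c; rw [hk, if_pos hc]⟩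

/-! ### the Kunen relation -/

/-- The Kunen relation of the continuous function `r ↦ ap2 y r`: the nodes are the pairs
`(X|m, k)`; a node `(X|m', k')`, `m < m'`, is below `(X|m, k)` if all sequences `Y` extending `X|m'`
have `k'` below `k` in `ap2 y (oc Y)`. -/
noncomputable def Ku (y : Re M) : IFun M (W M × W M) Prop :=
  lam (fun p => ∃ X : IFun M (N M) (W M), ∃ m m' k k' : N M, m < m' ∧ p.2 = pw (cW X m) (nat k) ∧
    p.1 = pw (cW X m') (nat k') ∧
    ∀ Y : IFun M (N M) (W M), (∀ i, i < m' → Y i = X i) → rel (ap2 y (oc Y)) (k', k)) (by fun_prop)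

@[fun_prop] theorem IF.Ku {f : α → Re M} (hf : IF M f) : IF M (fun x => Ku (f x)) := by
  unfold MG.Ku; fun_prop

theorem Ku_apply {y : Re M} {u u' : W M} : Ku y (u', u) ↔
    ∃ X : IFun M (N M) (W M), ∃ m m' k k' : N M, m < m' ∧ u = pw (cW X m) (nat k) ∧
    u' = pw (cW X m') (nat k') ∧
    ∀ Y : IFun M (N M) (W M), (∀ i, i < m' → Y i = X i) → rel (ap2 y (oc Y)) (k', k) := Iff.rfl

theorem Ku_iwf {y : Re M} (hy : ∀ r, WF r → WF (ap2 y r)) : IWf (Ku y) := by
  by_contra hcon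
  unfold IWf at hcon
  push Not at hcon
  obtain ⟨P, ⟨x0, hx0⟩, hP⟩ := hcon
  -- a descending sequence of nodes
  obtain ⟨F', hF', hF0, hFs⟩ := N.exists_rec (M := M) (γ := Unit) (β := W M) (fun _ => x0)
    (fun _ _ x => lst M (fun x' => Ku y (x', x) ∧ P x')) (by fun_prop) (by fun_prop)
  let F : IFun M (N M) (W M) := ⟨fun n => F' () n, hF'.comp (g := fun n : N M => ((), n)) (by fun_prop)⟩
  have hF0 : F 0 = x0 := hF0 ()
  have hFs : ∀ n, F (sc n) = lst M (fun x' => Ku y (x', F n) ∧ P x') := fun n => hFs () n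
  have hFP : ∀ n, P (F n) := by
    refine N.ind _ (by fun_prop) (by rw [hF0]; exact hx0) ?_
    intro n ih
    rw [hFs]
    obtain ⟨x', h1, h2⟩ := hP _ ih
    exact (lst_spec (P := fun x' => Ku y (x', F n) ∧ P x') (by fun_prop) ⟨x', h1, h2⟩).2
  have hFK : ∀ n, Ku y (F (sc n), F n) := by
    intro n
    rw [hFs]
    obtain ⟨x', h1, h2⟩ := hP _ (hFP n)
    exact (lst_spec (P := fun x' => Ku y (x', F n) ∧ P x') (by fun_prop) ⟨x', h1, h2⟩).1
  -- the values of the sequences
  let S : N M → N M → W M → Prop := fun n i w => ∃ X : IFun M (N M) (W M), ∃ m k : N M, i < m ∧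
    F n = pw (cW X m) (nat k) ∧ X i = w
  have hS : ∀ n i w, S n i w ↔ ∃ X : IFun M (N M) (W M), ∃ m k : N M, i < m ∧
    F n = pw (cW X m) (nat k) ∧ X i = w := fun _ _ _ => Iff.rfl
  have hSsc : ∀ n i w, S n i w → S (sc n) i w := by
    rintro n i w ⟨X, m, k, him, hF, hXi⟩
    obtain ⟨X', m1, m2, k1, k2, hm, h1, h2, _⟩ := Ku_apply.1 (hFK n)
    have h3 := pw_inj (hF.symm.trans h1)
    obtain ⟨rfl, h4⟩ := cW_eq_iff.1 h3.1
    refine ⟨X', m2, k2, him.trans hm, h2, ?_⟩
    rw [← h4 i him, hXi]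
  have hSu : ∀ n i w w', S n i w → S n i w' → w = w' := by
    rintro n i w w' ⟨X, m, k, him, hF, hXi⟩ ⟨X', m', k', him', hF', hXi'⟩
    have h3 := pw_inj (hF.symm.trans hF')
    obtain ⟨rfl, h4⟩ := cW_eq_iff.1 h3.1
    rw [← hXi, ← hXi', h4 i him]
  have hSIF : IF M (fun q : (N M × N M) × W M => S q.1.1 q.1.2 q.2) := by
    show IF M (fun q : (N M × N M) × W M => ∃ X : IFun M (N M) (W M), ∃ m k : N M, q.1.2 < m ∧
      F q.1.1 = pw (cW X m) (nat k) ∧ X q.1.2 = q.2)
    fun_prop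
  have hSle : ∀ i w n l, S n i w → n ≤ l → S l i w := by
    intro i w n
    have h1 : IF M (fun l : N M => S n i w → n ≤ l → S l i w) := by
      have h2 : IF M (fun l : N M => S l i w) :=
        hSIF.comp (g := fun l : N M => ((l, i), w)) (by fun_prop)
      fun_prop
    refine N.ind _ h1 ?_ ?_
    · intro h hn
      have : n = 0 := le_antisymm hn (N.zero_le n)
      rw [← this]; exact h
    · intro l ih h hn
      rcases lt_or_eq_of_le hn with hn | rfl
      · exact hSsc _ _ _ (ih h (N.lt_sc.1 hn))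
      · exact h
  -- the union
  have hXX : IF M (fun i : N M => lst M (fun w => ∃ n, S n i w)) := by
    have h2 : IF M (fun q : (N M × W M) × N M => S q.2 q.1.1 q.1.2) :=
      hSIF.comp (g := fun q : (N M × W M) × N M => ((q.2, q.1.1), q.1.2)) (by fun_prop)
    fun_prop
  let Y : IFun M (N M) (W M) := ⟨_, hXX⟩
  have hY : ∀ n i w, S n i w → Y i = w := by
    intro n i w h
    have h2 : IF M (fun w : W M => ∃ n, S n i w) := by
      have h2 : IF M (fun q : W M × N M => S q.2 i q.1) :=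
        hSIF.comp (g := fun q : W M × N M => ((q.2, i), q.1)) (by fun_prop)
      fun_prop
    obtain ⟨n', h'⟩ := lst_spec (P := fun w => ∃ n, S n i w) h2 ⟨w, n, h⟩
    have h3 := hSle _ _ _ (max n n') h' (le_max_right _ _)
    have h4 := hSle _ _ _ (max n n') h (le_max_left _ _)
    exact hSu _ _ _ _ h3 h4
  have hwf := hy _ (WF_oc Y)
  rw [WF_iff] at hwf
  obtain ⟨k, ⟨n, hn⟩, hk'⟩ := hwf
    (lam (fun k : N M => ∃ n, ∃ X : IFun M (N M) (W M), ∃ m, F n = pw (cW X m) (nat k)) (by fun_prop)) (by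
      obtain ⟨X', m1, m2, k1, k2, hm, h1, h2, _⟩ := Ku_apply.1 (hFK 0)
      exact ⟨k1, 0, X', m1, h1⟩)
  obtain ⟨X, m, hX⟩ := hn
  obtain ⟨X', m1, m2, k1, k2, hm, h1, h2, h3⟩ := Ku_apply.1 (hFK n)
  have h4 := pw_inj (hX.symm.trans h1)
  have h5 : k = k1 := nat_inj h4.2
  subst h5
  refine hk' k2 (h3 Y fun i hi => ?_) ⟨sc n, X', m2, h2⟩
  exact hY (sc n) i _ ⟨X', m2, k2, hi, h2, rfl⟩

end Pool.Agent.Helper48.MG
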