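import Pool.Agent.Helper98.MG.Ku

/-!
# MG block B, part 2: the representation theorems

The hypotheses `hdom`, `hbd`, `hclo`, `hnor`, `hpress` are provided by block A (they follow from
AD).
-/

set_option autoImplicit false

namespace Pool.Agent.Helper48.MG

variable {M : Type} [ZFM M]
variable {α β γ δ : Type} [Cl M α] [Cl M β] [Cl M γ] [Cl M δ]

theorem cW_lt {g : W M} (hg : Clo g) {X : IFun M (N M) (W M)} (hX : ∀ k, X k < g) (m : N M) :
    cW X m < g := by
  refine N.ind (fun m => cW X m < g) (by fun_prop) ?_ ?_ m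
  · show cW X 0 < g
    rw [cW_zero]; exact hg.1
  · intro m ih
    show cW X (sc m) < g
    rw [cW_sc]
    exact hg.2.2 _ _ ih (hX m)

theorem RL_of_Ku {y : Re M} {g : W M} (hg : Clo g) {X : IFun M (N M) (W M)} (hX : ∀ k, X k < g)
    {u a : W M} (h : RL (restr (Ku y) g) u a) :
    ∀ m k, u = pw (cW X m) (nat k) → RL (rel (ap2 y (oc X))) k a := by
  refine RL.ind (P := fun u a => ∀ m k, u = pw (cW X m) (nat k) → RL (rel (ap2 y (oc X))) k a)
    (by fun_prop) ?_ h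
  rintro u a h m k rfl
  refine RL.intro fun k' hk' => ?_
  obtain ⟨m0, hm0⟩ := exists_pr_bound (sc (pr k' k))
  have h1 : restr (Ku y) g (pw (cW X (max (sc m) m0)) (nat k'), pw (cW X m) (nat k)) := by
    refine ⟨hg.2.2 _ _ (cW_lt hg hX _) (hg.nat_lt _), hg.2.2 _ _ (cW_lt hg hX _) (hg.nat_lt _),
      X, m, max (sc m) m0, k, k', lt_of_lt_of_le (N.lt_sc_self m) (le_max_left _ _), rfl, rfl, ?_⟩
    intro Y hY
    show y (cd (oc Y) (sc (pr k' k))) = 0
    rw [oc_congr hm0 fun i hi => hY i (lt_of_lt_of_le hi (le_max_right _ _))]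
    exact hk'
  obtain ⟨b, hb, _, hb'⟩ := h _ h1
  exact ⟨b, hb, hb' _ _ rfl⟩

theorem Ku_cover {y : Re M} (hy : ∀ r, WF r → WF (ap2 y r)) {g c : W M} (hg : Clo g)
    {X : IFun M (N M) (W M)} (hX : ∀ k, X k < g) (hc : c < nrm (ap2 y (oc X))) :
    ∃ u, u < g ∧ rk (W M) (restr (Ku y) g) u = c := by
  have hwf := hy _ (WF_oc X)
  have h1 : ∃ k, c < rk (W M) (rel (ap2 y (oc X))) k := by
    by_contra h
    push Not at h
    exact not_le.2 hc (hwf.nrm_le_iff.2 h)
  obtain ⟨k, hk⟩ := h1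
  have h2 := (Ku_iwf hy).rkd_restr g (pw (cW X 0) (nat k))
  have h3 : rk (W M) (rel (ap2 y (oc X))) k ≤ rk (W M) (restr (Ku y) g) (pw (cW X 0) (nat k)) :=
    (RL_of_Ku hg hX h2.rl 0 k rfl).rk_le
  obtain ⟨u, hu, _, hu'⟩ := exists_rk_eq_restr h2 (hg.2.2 _ _ (cW_lt hg hX 0) (hg.nat_lt k))
    (hk.le.trans h3)
  exact ⟨u, hu, hu'⟩

theorem exists_K (hdom : ∀ f : Fn M, ∃ y : Re M, (∀ r, WF r → WF (ap2 y r)) ∧
    ∀ r, WF r → f (nrm r) ≤ nrm (ap2 y r)) (f : Fn M) :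
    ∃ y : Re M, IWf (Ku y) ∧
      ∀ g, Clo g → ∀ c, c < f g → ∃ u, u < g ∧ rk (W M) (restr (Ku y) g) u = c := by
  obtain ⟨y, hy, hyf⟩ := hdom f
  refine ⟨y, Ku_iwf hy, fun g hg c hc => ?_⟩
  obtain ⟨X, hX⟩ := exists_onto_below hg.1
  refine Ku_cover hy hg (X := X) (fun k => (hX _).1 ⟨k, rfl⟩) (lt_of_lt_of_le hc ?_)
  have h1 := hyf _ (WF_oc X)
  rwa [nrm_oc hX hg.2.1] at h1

theorem Ev_gt' (s : W M) : Ev (fun c => s < c) :=
  ⟨lam (fun _ => s) (by fun_prop), fun c hc => by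
    obtain ⟨⟨b, hb⟩, h⟩ := hc
    exact h b hb⟩

/-- `c` is closed under the inverse of the pairing, for club many `c` -/
theorem Ev_unpw : Ev (fun c : W M => ∀ a b, pw a b < c → a < c ∧ b < c) := by
  have h1 : IF M (fun x : W M => lst M (fun z : W M => ∀ a b, pw a b = x → a < z ∧ b < z)) := by
    fun_prop
  refine ⟨⟨_, h1⟩, fun c hc a b hab => ?_⟩
  have h2 := hc.2 _ hab
  have h3 := lst_spec (P := fun z : W M => ∀ a' b', pw a' b' = pw a b → a' < z ∧ b' < z)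
    (by fun_prop) ⟨sW (max a b), fun a' b' h => by
      obtain ⟨rfl, rfl⟩ := pw_inj h
      exact ⟨lt_of_le_of_lt (le_max_left _ _) (lt_sW_self _),
        lt_of_le_of_lt (le_max_right _ _) (lt_sW_self _)⟩⟩ a b rfl
  exact ⟨h3.1.trans h2, h3.2.trans h2⟩

theorem nd_inj {s s' : W M} (h : nd s = nd s') : s = s' := (pw_inj h).2

/-- the representing relation: `K` on the nodes `pw 0 u`, and `nd s` has the predecessors of `t s`. -/
noncomputable def KZ (K : IFun M (W M × W M) Prop) (t : Fn M) : IFun M (W M × W M) Prop :=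
  lam (fun p => ∃ u' : W M, p.1 = pw (nat 0) u' ∧
    ((∃ u, p.2 = pw (nat 0) u ∧ K (u', u)) ∨ ∃ s, p.2 = nd s ∧ K (u', t s))) (by fun_prop)

theorem KZ_zero {K : IFun M (W M × W M) Prop} {t : Fn M} {x u : W M} :
    KZ K t (x, pw (nat 0) u) ↔ ∃ u', x = pw (nat 0) u' ∧ K (u', u) := by
  constructor
  · rintro ⟨u', h1, ⟨u2, h2, h3⟩ | ⟨s, h2, h3⟩⟩
    · have h4 : u = u2 := (pw_inj h2).2
      subst h4
      exact ⟨u', h1, h3⟩
    · exact (N.sc_ne_zero (0 : N M) (nat_inj (pw_inj h2).1).symm).elim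
  · rintro ⟨u', h1, h2⟩
    exact ⟨u', h1, Or.inl ⟨u, rfl, h2⟩⟩

theorem KZ_nd {K : IFun M (W M × W M) Prop} {t : Fn M} {x s : W M} :
    KZ K t (x, nd s) ↔ ∃ u', x = pw (nat 0) u' ∧ K (u', t s) := by
  constructor
  · rintro ⟨u', h1, ⟨u2, h2, h3⟩ | ⟨s', h2, h3⟩⟩
    · exact (N.sc_ne_zero (0 : N M) (nat_inj (pw_inj h2).1)).elim
    · have h4 : s = s' := nd_inj h2
      subst h4
      exact ⟨u', h1, h3⟩
  · rintro ⟨u', h1, h2⟩
    exact ⟨u', h1, Or.inr ⟨s, rfl, h2⟩⟩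

theorem KZ_iwf {K : IFun M (W M × W M) Prop} (hK : IWf K) (t : Fn M) : IWf (KZ K t) := by
  rintro P ⟨x, hx⟩
  by_cases h : ∃ u, P (pw (nat 0) u)
  · obtain ⟨u, hu, hu'⟩ := hK (lam (fun u => P (pw (nat 0) u)) (by fun_prop)) h
    refine ⟨pw (nat 0) u, hu, fun z hz hPz => ?_⟩
    obtain ⟨u', rfl, h2⟩ := KZ_zero.1 hz
    exact hu' u' h2 hPz
  · refine ⟨x, hx, fun z hz hPz => h ?_⟩
    obtain ⟨u', h1, _⟩ := hz
    have h1' : z = pw (nat 0) u' := h1
    exact ⟨u', h1' ▸ hPz⟩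

theorem RL_KZ_zero {K : IFun M (W M × W M) Prop} {t : Fn M} {c : W M} (hc : Clo c)
    (hc' : ∀ a b, pw a b < c → a < c ∧ b < c) {u a : W M} (hu : u < c) :
    RL (restr (KZ K t) c) (pw (nat 0) u) a ↔ RL (restr K c) u a := by
  constructor
  · intro h
    refine RL.ind (R := restr (KZ K t) c)
      (P := fun x a => ∀ u, u < c → x = pw (nat 0) u → RL (restr K c) u a) (by fun_prop) ?_ h
      u hu rfl
    rintro x a h u hu rfl
    refine RL.intro fun u' hu' => ?_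
    obtain ⟨b, hb, _, hb'⟩ := h (pw (nat 0) u')
      ⟨hc.2.2 _ _ (hc.nat_lt _) hu'.1, hc.2.2 _ _ (hc.nat_lt _) hu, KZ_zero.2 ⟨u', rfl, hu'.2.2⟩⟩
    exact ⟨b, hb, hb' u' hu'.1 rfl⟩
  · intro h
    refine RL.ind (R := restr K c)
      (P := fun u a => u < c → RL (restr (KZ K t) c) (pw (nat 0) u) a) (by unfold KZ; fun_prop) ?_ h hu
    intro u a h hu
    refine RL.intro fun x hx => ?_
    obtain ⟨u', rfl, h2⟩ := KZ_zero.1 hx.2.2
    have h3 : u' < c := (hc' _ _ hx.1).2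
    obtain ⟨b, hb, _, hb'⟩ := h u' ⟨h3, hu, h2⟩
    exact ⟨b, hb, hb' h3⟩

theorem rk_KZ_nd {K : IFun M (W M × W M) Prop} {t : Fn M} {c : W M} (hc : Clo c)
    (hc' : ∀ a b, pw a b < c → a < c ∧ b < c) {s : W M} (hs : s < c) (hts : t s < c) :
    rk (W M) (restr (KZ K t) c) (nd s) = rk (W M) (restr K c) (t s) := by
  have key : ∀ a : W M, RL (restr (KZ K t) c) (nd s) a ↔ RL (restr K c) (t s) a := by
    intro a
    rw [RL_iff, RL_iff]
    constructor
    · intro h u' hu'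
      obtain ⟨b, hb, hb'⟩ := h (pw (nat 0) u') ⟨hc.2.2 _ _ (hc.nat_lt _) hu'.1,
        hc.2.2 _ _ (hc.nat_lt _) hs, KZ_nd.2 ⟨u', rfl, hu'.2.2⟩⟩
      exact ⟨b, hb, (RL_KZ_zero hc hc' hu'.1).1 hb'⟩
    · intro h x hx
      obtain ⟨u', rfl, h2⟩ := KZ_nd.1 hx.2.2
      have h3 : u' < c := (hc' _ _ hx.1).2
      obtain ⟨b, hb, hb'⟩ := h u' ⟨h3, hts, h2⟩
      exact ⟨b, hb, (RL_KZ_zero hc hc' h3).2 hb'⟩
  unfold rk
  exact congrArg (lst M) (funext fun a => propext (key a))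

section
variable (hdom : ∀ f : Fn M, ∃ y : Re M, (∀ r, WF r → WF (ap2 y r)) ∧
    ∀ r, WF r → f (nrm r) ≤ nrm (ap2 y r))
  (hbd : ∀ (f : Fn M) (a : W M), ∃ b, ∀ c, c ≤ a → f c < b)
  (hclo : Ev (fun c : W M => Clo c))
  (hpress : ∀ f : Fn M, Ev (fun a => f a < a) → ∃ c, Ev (fun a => f a = c))

include hdom hbd hclo hpress

/-- one variable, with a parameter: the functions below `h` are given by nodes of `K` -/
theorem exists_K_press (h : IFun M (W M × W M) (W M)) :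
    ∃ y : Re M, IWf (Ku y) ∧ ∀ (f : Fn M) (s : W M),
      Ev (fun c => f c < h (c, s)) →
        ∃ t : W M, Ev (fun c => rk (W M) (restr (Ku y) c) t = f c) := by
  have hH : IF M (fun c : W M => lst M (fun b : W M => ∀ s, s < c → h (c, s) < b)) := by fun_prop
  obtain ⟨y, hK, hKc⟩ := exists_K hdom ⟨_, hH⟩
  have hH' : ∀ c s, s < c → h (c, s) < lst M (fun b : W M => ∀ s, s < c → h (c, s) < b) := by
    intro c
    refine lst_spec (P := fun b : W M => ∀ s, s < c → h (c, s) < b) (by fun_prop) ?_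
    obtain ⟨b, hb⟩ := hbd (lam (fun s => h (c, s)) (by fun_prop)) c
    exact ⟨b, fun s hs => hb s hs.le⟩
  refine ⟨y, hK, fun f s hf => ?_⟩
  generalize Ku y = K at hKc
  have hu : IF M (fun c : W M => lst M (fun u : W M => rk (W M) (restr K c) u = f c)) := by fun_prop
  have h1 : Ev (fun c : W M => lst M (fun u : W M => rk (W M) (restr K c) u = f c) < c ∧
      rk (W M) (restr K c) (lst M (fun u : W M => rk (W M) (restr K c) u = f c)) = f c) := by
    refine ((hclo.and (Ev_gt' s)).and hf).mono ?_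
    rintro c ⟨⟨h1, h2⟩, h3⟩
    obtain ⟨u, hu, hu'⟩ := hKc c h1 (f c) (h3.trans (hH' c s h2))
    exact ⟨lt_of_le_of_lt (lst_le (P := fun u : W M => rk (W M) (restr K c) u = f c)
      (by fun_prop) hu') hu,
      lst_spec (P := fun u : W M => rk (W M) (restr K c) u = f c) (by fun_prop) ⟨u, hu'⟩⟩
  obtain ⟨t, ht⟩ := hpress ⟨_, hu⟩ (h1.mono fun c hc => hc.1)
  refine ⟨t, (h1.and ht).mono ?_⟩
  rintro c ⟨⟨_, h2⟩, h3⟩
  have h3' : lst M (fun u : W M => rk (W M) (restr K c) u = f c) = t := h3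
  rw [h3'] at h2
  exact h2

/-- REPRESENTATION. Every function `g (c, s)` is given by ranks in restrictions of one relation. -/
theorem exists_rep'
    (hnor : ∀ Q : IFun M (W M × W M) Prop, (∀ s, Ev (fun c => Q (s, c))) →
      Ev (fun c => ∀ s, s < c → Q (s, c)))
    (g : IFun M (W M × W M) (W M)) :
    ∃ Z : IFun M (W M × W M) Prop, IWf Z ∧
      Ev (fun c => ∀ s, s < c → rk (W M) (restr Z c) (nd s) = g (c, s)) := by
  obtain ⟨y, hK, hKp⟩ := exists_K_press hdom hbd hclo hpress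
    (lam (fun p : W M × W M => sW (g p)) (by fun_prop))
  generalize Ku y = K at hK hKp
  have ht : IF M (fun s : W M => lst M (fun t : W M => Ev (fun c : W M =>
      rk (W M) (restr K c) t = g (c, s)))) := by
    fun_prop
  let t : Fn M := ⟨_, ht⟩
  have hts : ∀ s, Ev (fun c => rk (W M) (restr K c) (t s) = g (c, s)) := by
    intro s
    refine lst_spec (P := fun t : W M => Ev (fun c : W M => rk (W M) (restr K c) t = g (c, s)))
      (by fun_prop) ?_
    exact hKp (lam (fun c => g (c, s)) (by fun_prop)) s ⟨lam (fun c => c) (by fun_prop), fun c _ => lt_sW_self _⟩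
  have h1 : Ev (fun c => ∀ s, s < c → (rk (W M) (restr K c) (t s) = g (c, s) ∧ t s < c)) := by
    refine hnor (lam (fun q : W M × W M => rk (W M) (restr K q.2) (t q.1) = g (q.2, q.1) ∧
      t q.1 < q.2) (by fun_prop)) fun s => ?_
    exact (hts s).and (Ev_gt' (t s))
  refine ⟨KZ K t, KZ_iwf hK t, ((h1.and hclo).and Ev_unpw).mono ?_⟩
  rintro c ⟨⟨h1, h2⟩, h3⟩ s hs
  rw [rk_KZ_nd h2 h3 hs (h1 s hs).2]
  exact (h1 s hs).1

end

/-! ### several variables -/

/-- the function with the values `rk (restr K c) (t s)` at `pw s c` -/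
noncomputable def kf (K : IFun M (W M × W M) Prop) (t : Fn M) : Fn M :=
  lam (fun x => lst M (fun b : W M => ∃ s c, x = pw s c ∧ b = rk (W M) (restr K c) (t s))) (by fun_prop)

@[fun_prop] theorem IF.kf {f : α → IFun M (W M × W M) Prop} {g : α → Fn M} (hf : IF M f)
    (hg : IF M g) : IF M (fun x => kf (f x) (g x)) := by
  unfold MG.kf; fun_prop

theorem kf_pw (K : IFun M (W M × W M) Prop) (t : Fn M) (s c : W M) :
    kf K t (pw s c) = rk (W M) (restr K c) (t s) := by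
  obtain ⟨s', c', h1, h2⟩ := lst_spec (P := fun b : W M => ∃ s' c', pw s c = pw s' c' ∧
    b = rk (W M) (restr K c') (t s')) (by fun_prop) ⟨_, s, c, rfl, rfl⟩
  obtain ⟨rfl, rfl⟩ := pw_inj h1
  exact h2

/-- monotonicity of `AE n` (for internal predicates) -/
theorem AE_mono_aux : ∀ (n : N M) (P Q : IFun M (W M) Prop), (∀ a, P a → Q a) →
    AE n (fun a => P a) → AE n (fun a => Q a) := by
  refine N.ind _ (by fun_prop) ?_ ?_
  · intro P Q h h1
    rw [AE_zero (by fun_prop)] at h1 ⊢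
    exact h _ h1
  · intro n ih P Q h h1
    rw [AE_sc (by fun_prop)] at h1 ⊢
    exact ih (lam (fun t => Ev (fun g => P (pw t g))) (by fun_prop)) (lam (fun t => Ev (fun g => Q (pw t g))) (by fun_prop))
      (fun t ht => Ev.mono ht fun g => h _) h1

theorem kf_congr {K : IFun M (W M × W M) Prop} {n : N M} {t t' : Fn M} (h : eqn n t t') :
    eqn (sc n) (kf K t) (kf K t') := by
  unfold eqn at h ⊢
  rw [AE_sc (by fun_prop)]
  refine AE_mono_aux n (lam (fun a => t a = t' a) (by fun_prop))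
    (lam (fun s => Ev (fun c => kf K t (pw s c) = kf K t' (pw s c))) (by fun_prop)) (fun s hs => ?_) h
  have hs' : t s = t' s := hs
  refine ⟨lam (fun c => c) (by fun_prop), fun c _ => ?_⟩
  show kf K t (pw s c) = kf K t' (pw s c)
  rw [kf_pw, kf_pw, hs']

section
variable (hdom : ∀ f : Fn M, ∃ y : Re M, (∀ r, WF r → WF (ap2 y r)) ∧
    ∀ r, WF r → f (nrm r) ≤ nrm (ap2 y r))
  (hbd : ∀ (f : Fn M) (a : W M), ∃ b, ∀ c, c ≤ a → f c < b)
  (hclo : Ev (fun c : W M => Clo c))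
  (hpress : ∀ f : Fn M, Ev (fun a => f a < a) → ∃ c, Ev (fun a => f a = c))

include hdom hbd hclo hpress

/-- The functions of `n + 1` variables below `h` are given by functions of `n` variables. -/
theorem exists_kf' (h : Fn M) : ∃ y : Re M, IWf (Ku y) ∧
    ∀ n f, ltn (sc n) f h → ∃ t : Fn M, eqn (sc n) f (kf (Ku y) t) := by
  obtain ⟨y, hK, hKp⟩ := exists_K_press hdom hbd hclo hpress
    (lam (fun p : W M × W M => h (pw p.2 p.1)) (by fun_prop))
  refine ⟨y, hK, fun n f hf => ?_⟩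
  generalize Ku y = K at hKp
  have ht : IF M (fun s : W M => lst M (fun t : W M => Ev (fun c : W M =>
      rk (W M) (restr K c) t = f (pw s c)))) := by
    fun_prop
  refine ⟨⟨_, ht⟩, ?_⟩
  unfold ltn at hf
  unfold eqn
  rw [AE_sc (by fun_prop)] at hf ⊢
  refine AE_mono_aux n (lam (fun s => Ev (fun c => f (pw s c) < h (pw s c))) (by fun_prop)) (lam (fun s =>
    Ev (fun c => f (pw s c) = kf K ⟨_, ht⟩ (pw s c))) (by fun_prop)) (fun s hs => ?_) hf
  have h1 : Ev (fun c : W M => rk (W M) (restr K c) (lst M (fun t : W M => Ev (fun c : W M =>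
      rk (W M) (restr K c) t = f (pw s c)))) = f (pw s c)) := by
    refine lst_spec (P := fun t : W M => Ev (fun c : W M => rk (W M) (restr K c) t = f (pw s c)))
      (by fun_prop) ?_
    exact hKp (lam (fun c => f (pw s c)) (by fun_prop)) s hs
  refine h1.mono fun c hc => ?_
  rw [kf_pw]
  exact hc.symm

end

end Pool.Agent.Helper48.MG
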