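import Pool.Agent.Helper48.MG.CT
import Pool.Agent.Helper98.MG.Rep

/-!
# MG block D: the order of the slots, the function `k`, the realization lemma
-/

set_option autoImplicit false

namespace Pool.Agent.Helper48.MG

variable {M : Type} [ZFM M]
variable {α β γ δ : Type} [Cl M α] [Cl M β] [Cl M γ] [Cl M δ]

/-! ### the order of the slots -/

theorem sW_inj {a b : W M} (h : sW a = sW b) : a = b := by
  refine le_antisymm ?_ ?_
  · rw [← lt_sW, ← h]; exact lt_sW_self a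
  · rw [← lt_sW, h]; exact lt_sW_self b

theorem sW_ne (a : W M) : sW a ≠ w0 M := fun h => by
  have h1 := lt_sW_self a
  rw [h] at h1
  exact not_le.2 h1 (w0_le a)

theorem k_inj {w w' : W M} (h1 : k1 w = k1 w') (h2 : k2 w = k2 w') : w = w' := by
  by_cases h : ∃ a b, pw a b = w
  · obtain ⟨a, b, rfl⟩ := h
    by_cases h' : ∃ a b, pw a b = w'
    · obtain ⟨a', b', rfl⟩ := h'
      rw [k1_pw, k1_pw] at h1
      rw [k2_pw, k2_pw] at h2
      rw [sW_inj h1, h2]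
    · rw [k1_pw, k1_of_not h'] at h1
      exact (sW_ne a h1).elim
  · by_cases h' : ∃ a b, pw a b = w'
    · obtain ⟨a', b', rfl⟩ := h'
      rw [k1_pw, k1_of_not h] at h1
      exact (sW_ne a' h1.symm).elim
    · rw [k2_of_not h, k2_of_not h'] at h2
      exact h2

theorem ilo_lo0 : ILO (lo0 M) where
  irr a := by
    rw [lo0_iff]
    rintro (h | ⟨_, h⟩)
    · exact lt_irrefl _ h
    · exact lt_irrefl _ h
  tr a b c := by
    rw [lo0_iff, lo0_iff, lo0_iff]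
    rintro (h1 | ⟨h1, h1'⟩) (h2 | ⟨h2, h2'⟩)
    · exact Or.inl (h1.trans h2)
    · exact Or.inl (h2 ▸ h1)
    · exact Or.inl (h1 ▸ h2)
    · exact Or.inr ⟨h1.trans h2, h1'.trans h2'⟩
  tot a b hab := by
    rw [lo0_iff, lo0_iff]
    rcases lt_trichotomy (k1 a) (k1 b) with h1 | h1 | h1
    · exact Or.inl (Or.inl h1)
    · rcases lt_trichotomy (k2 a) (k2 b) with h2 | h2 | h2
      · exact Or.inl (Or.inr ⟨h1, h2⟩)
      · exact (hab (k_inj h1 h2)).elim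
      · exact Or.inr (Or.inr ⟨h1.symm, h2⟩)
    · exact Or.inr (Or.inl h1)
  wf := by
    rintro P ⟨x, hx⟩
    obtain ⟨c, ⟨x, hx, rfl⟩, hc⟩ := IWO.least (M := M) (fun c : W M => ∃ x, P x ∧ k1 x = c)
      (by fun_prop) ⟨_, x, hx, rfl⟩
    obtain ⟨s, ⟨y, hy, hy1, rfl⟩, hs⟩ := IWO.least (M := M)
      (fun s : W M => ∃ y, P y ∧ k1 y = k1 x ∧ k2 y = s) (by fun_prop) ⟨_, x, hx, rfl, rfl⟩
    refine ⟨y, hy, fun z hz hPz => ?_⟩
    rw [lo0_iff] at hz
    rcases hz with h | ⟨h, h'⟩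
    · rw [hy1] at h
      exact not_lt.2 (hc _ ⟨z, hPz, rfl⟩) h
    · exact not_lt.2 (hs _ ⟨z, hPz, h.trans hy1, rfl⟩) h'

/-! ### the functions `h_z` -/

theorem ltn_hz {C : IFun M (W M) Prop} {k : IFun M (Ps M) (W M)} (hk : KK C k) {n : N M}
    {z z' : Fn M} (h : ltn (sc n) z z') (h' : len (sc n) z' (top M)) :
    ltn (sc n) (hz k n z) (hz k n z') := by
  obtain ⟨k', hk'⟩ := hk
  unfold ltn at h ⊢
  unfold len at h'
  have h1 := AE.and (by fun_prop) (by fun_prop) h h'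
  rw [AE_sc (by fun_prop)] at h1 ⊢
  refine AE.mono (by fun_prop) (by fun_prop) (fun t ht => ?_) h1
  refine (ht.and (Ev.gt (sW (pw (nat n) t)))).mono ?_
  rintro c ⟨⟨h2, h3⟩, h4⟩
  rw [top_pw] at h3
  rw [hz_pw, hz_pw]
  have hx : pok (M := M) (c, sW (pw (nat n) t), z (pw t c), w0 M) :=
    ⟨h4.le, h2.le.trans h3, w0_le _⟩
  have hx' : pok (M := M) (c, sW (pw (nat n) t), z' (pw t c), w0 M) := ⟨h4.le, h3, w0_le _⟩
  obtain ⟨_, _, h5, _, _, h6⟩ := hk' _ hx'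
  exact (h6 _ hx (Or.inr ⟨rfl, Or.inr ⟨rfl, Or.inl h2⟩⟩)).trans (h5 0)

theorem eqn_hz {k : IFun M (Ps M) (W M)} {n : N M}
    {z z' : Fn M} (h : eqn (sc n) z z') : eqn (sc n) (hz k n z) (hz k n z') := by
  unfold eqn at h ⊢
  rw [AE_sc (by fun_prop)] at h ⊢
  refine AE.mono (by fun_prop) (by fun_prop) (fun t ht => ?_) h
  refine ht.mono fun c hc => ?_
  have hc' : z (pw t c) = z' (pw t c) := hc
  rw [hz_pw, hz_pw, hc']

/-- the values of `hz` are above the last variable -/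
theorem top_lt_hz {C : IFun M (W M) Prop} {k : IFun M (Ps M) (W M)} (hk : KK C k) {n : N M}
    {z : Fn M} (h : len (sc n) z (top M)) : ltn (sc n) (top M) (hz k n z) := by
  obtain ⟨k', hk'⟩ := hk
  unfold len at h
  unfold ltn
  rw [AE_sc (by fun_prop)] at h ⊢
  refine AE.mono (by fun_prop) (by fun_prop) (fun t ht => ?_) h
  refine (ht.and (Ev.gt (sW (pw (nat n) t)))).mono ?_
  rintro c ⟨h3, h4⟩
  rw [top_pw] at h3
  rw [hz_pw, top_pw]
  have hx : pok (M := M) (c, sW (pw (nat n) t), z (pw t c), w0 M) := ⟨h4.le, h3, w0_le _⟩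
  obtain ⟨h7, _, h5, _, _, h6⟩ := hk' _ hx
  exact h7.trans (h5 0)

/-! ### the function `k` -/

/-- an increasing enumeration of closure points -/
theorem exists_enum [AD M] (f : Fn M) : ∃ e : Fn M, (∀ b, Cp f (e b)) ∧ (∀ b, b ≤ e b) ∧
    ∀ b b', b < b' → e b < e b' := by
  let R : IFun M (W M × W M) Prop := lam (fun p => Cp f p.1 ∧ p.1 < p.2) (by fun_prop)
  have hRL : ∀ a, RL R a a := RL_of_fun (F := fun a : W M => a) (by fun_prop) fun x y h => h.2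
  have hR : ∀ a, Rkd (W M) R a := fun a => (hRL a).rkd
  have hex : ∀ b, ∃ a, Cp f a ∧ b ≤ rk (W M) R a := by
    by_contra hcon
    push Not at hcon
    obtain ⟨b, hb, hmin⟩ := IWO.least (M := M)
      (fun b : W M => ∀ a, Cp f a → rk (W M) R a < b) (by fun_prop) hcon
    have h1 : ∀ c, c < b → ∃ a, Cp f a ∧ c ≤ rk (W M) R a := by
      intro c hc
      by_contra h
      push Not at h
      exact not_lt.2 (hmin c h) hc
    obtain ⟨d, hd⟩ := W_below (lam (fun c => lst M (fun a => Cp f a ∧ c ≤ rk (W M) R a)) (by fun_prop)) b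
    obtain ⟨a, had, ha⟩ := (Ev_Cp f).exists_gt d
    refine not_le.2 (hb a ha) ?_
    by_contra hlt
    rw [not_le] at hlt
    obtain ⟨h2, h3⟩ := lst_spec (P := fun a' => Cp f a' ∧ rk (W M) R a ≤ rk (W M) R a')
      (by fun_prop) (h1 _ hlt)
    have h4 := (hd _ hlt.le).trans had
    have h5 : R (lst M (fun a' => Cp f a' ∧ rk (W M) R a ≤ rk (W M) R a'), a) := ⟨h2, h4⟩
    exact not_le.2 (rk_lt (hR a) h5) h3
  have hsp : ∀ b, Cp f (lst M (fun a => Cp f a ∧ b ≤ rk (W M) R a)) ∧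
      b ≤ rk (W M) R (lst M (fun a => Cp f a ∧ b ≤ rk (W M) R a)) := fun b =>
    lst_spec (P := fun a => Cp f a ∧ b ≤ rk (W M) R a) (by fun_prop) (hex b)
  refine ⟨lam (fun b => lst M (fun a => Cp f a ∧ b ≤ rk (W M) R a)) (by fun_prop), fun b => (hsp b).1,
    fun b => (hsp b).2.trans (hRL _).rk_le, fun b b' hb => ?_⟩
  obtain ⟨h1, h2⟩ := hsp b'
  have h3 := hb.trans_le h2
  rw [← not_le, rk_le_iff (hR _)] at h3
  push Not at h3
  obtain ⟨a, ha, ha'⟩ := h3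
  show lst M (fun a => Cp f a ∧ b ≤ rk (W M) R a) < lst M (fun a => Cp f a ∧ b' ≤ rk (W M) R a)
  exact (lst_le (P := fun a => Cp f a ∧ b ≤ rk (W M) R a) (by fun_prop) ⟨ha.1, ha'⟩).trans_lt ha.2

theorem plt_trans {x y z : Ps M} (h1 : plt x y) (h2 : plt y z) : plt x z := by
  unfold plt at *
  rcases h1 with h1 | ⟨e1, h1⟩
  · rcases h2 with h2 | ⟨e2, _⟩
    · exact Or.inl (h1.trans h2)
    · exact Or.inl (e2 ▸ h1)
  · rcases h2 with h2 | ⟨e2, h2⟩
    · exact Or.inl (e1 ▸ h2)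
    · refine Or.inr ⟨e1.trans e2, ?_⟩
      rcases h1 with h1 | ⟨f1, h1⟩
      · rcases h2 with h2 | ⟨f2, _⟩
        · exact Or.inl (h1.trans h2)
        · exact Or.inl (f2 ▸ h1)
      · rcases h2 with h2 | ⟨f2, h2⟩
        · exact Or.inl (f1 ▸ h2)
        · refine Or.inr ⟨f1.trans f2, ?_⟩
          rcases h1 with h1 | ⟨g1, h1⟩
          · rcases h2 with h2 | ⟨g2, _⟩
            · exact Or.inl (h1.trans h2)
            · exact Or.inl (g2 ▸ h1)
          · rcases h2 with h2 | ⟨g2, h2⟩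
            · exact Or.inl (g1 ▸ h2)
            · exact Or.inr ⟨g1.trans g2, h1.trans h2⟩

@[fun_prop] theorem IF.plt {f g : α → Ps M} (hf : IF M f) (hg : IF M g) :
    IF M (fun x => plt (f x) (g x)) := by
  unfold MG.plt; fun_prop

@[fun_prop] theorem IF.pok {f : α → Ps M} (hf : IF M f) : IF M (fun x => pok (f x)) := by
  unfold MG.pok; fun_prop

/-- the order of the legal positions with a number -/
noncomputable def pR (M : Type) [ZFM M] : IFun M ((Ps M × N M) × (Ps M × N M)) Prop :=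
  lam (fun q => pok q.1.1 ∧ (plt q.1.1 q.2.1 ∨ (q.1.1 = q.2.1 ∧ q.1.2 < q.2.2))) (by fun_prop)

theorem pR_iff {p q : Ps M × N M} :
    pR M (p, q) ↔ pok p.1 ∧ (plt p.1 q.1 ∨ (p.1 = q.1 ∧ p.2 < q.2)) := Iff.rfl

theorem pR_trans (x y z : Ps M × N M) (h1 : pR M (x, y)) (h2 : pR M (y, z)) : pR M (x, z) := by
  rw [pR_iff] at *
  refine ⟨h1.1, ?_⟩
  rcases h1.2 with h1 | ⟨e1, h1⟩
  · rcases h2.2 with h2 | ⟨e2, _⟩
    · exact Or.inl (plt_trans h1 h2)
    · exact Or.inl (e2 ▸ h1)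
  · rcases h2.2 with h2 | ⟨e2, h2⟩
    · exact Or.inl (e1 ▸ h2)
    · exact Or.inr ⟨e1.trans e2, h1.trans h2⟩

theorem pR_wf : IWf (pR M) := by
  rintro P ⟨x, hx⟩
  obtain ⟨c, ⟨x, hx, rfl⟩, hc⟩ := IWO.least (M := M) (fun c : W M => ∃ x, P x ∧ x.1.1 = c)
    (by fun_prop) ⟨_, x, hx, rfl⟩
  obtain ⟨c, ⟨y, hy, hy1, rfl⟩, hc2⟩ := IWO.least (M := M)
    (fun c : W M => ∃ y, P y ∧ y.1.1 = x.1.1 ∧ y.1.2.1 = c) (by fun_prop) ⟨_, x, hx, rfl, rfl⟩
  obtain ⟨c, ⟨z, hz, hz1, hz2, rfl⟩, hc3⟩ := IWO.least (M := M)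
    (fun c : W M => ∃ z, P z ∧ z.1.1 = x.1.1 ∧ z.1.2.1 = y.1.2.1 ∧ z.1.2.2.1 = c)
    (by fun_prop) ⟨_, y, hy, hy1, rfl, rfl⟩
  obtain ⟨c, ⟨u, hu, hu1, hu2, hu3, rfl⟩, hc4⟩ := IWO.least (M := M)
    (fun c : W M => ∃ u, P u ∧ u.1.1 = x.1.1 ∧ u.1.2.1 = y.1.2.1 ∧ u.1.2.2.1 = z.1.2.2.1 ∧
      u.1.2.2.2 = c) (by fun_prop) ⟨_, z, hz, hz1, hz2, rfl, rfl⟩
  obtain ⟨m, ⟨v, hv, hv1, hv2, hv3, hv4, rfl⟩, hm⟩ := IWO.least (M := M)
    (fun m : N M => ∃ v, P v ∧ v.1.1 = x.1.1 ∧ v.1.2.1 = y.1.2.1 ∧ v.1.2.2.1 = z.1.2.2.1 ∧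
      v.1.2.2.2 = u.1.2.2.2 ∧ v.2 = m) (by fun_prop) ⟨_, u, hu, hu1, hu2, hu3, rfl, rfl⟩
  refine ⟨v, hv, fun w hw hPw => ?_⟩
  rw [pR_iff] at hw
  unfold plt at hw
  obtain ⟨_, (hw | ⟨e1, hw | ⟨e2, hw | ⟨e3, hw⟩⟩⟩) | ⟨e, hw⟩⟩ := hw
  · rw [hv1] at hw
    exact not_lt.2 (hc _ ⟨w, hPw, rfl⟩) hw
  · rw [hv2] at hw
    exact not_lt.2 (hc2 _ ⟨w, hPw, e1.trans hv1, rfl⟩) hw
  · rw [hv3] at hw
    exact not_lt.2 (hc3 _ ⟨w, hPw, e1.trans hv1, e2.trans hv2, rfl⟩) hw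
  · rw [hv4] at hw
    exact not_lt.2 (hc4 _ ⟨w, hPw, e1.trans hv1, e2.trans hv2, e3.trans hv3, rfl⟩) hw
  · refine not_lt.2 (hm _ ⟨w, hPw, ?_, ?_, ?_, ?_, rfl⟩) hw
    · rw [e]; exact hv1
    · rw [e]; exact hv2
    · rw [e]; exact hv3
    · rw [e]; exact hv4

theorem pR_cnt (x : Ps M × N M) :
    ∃ f : IFun M (N M) (Ps M × N M), ∀ y, pR M (y, x) → ∃ n, f n = y := by
  obtain ⟨f, hf⟩ := exists_cov_W x.1.1
  obtain ⟨u, hu⟩ := exists_unpr (M := M)
  refine ⟨lam (fun n => ((f (u (u n).1).1, f (u (u n).1).2, f (u (u (u n).2).1).1,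
    f (u (u (u n).2).1).2), (u (u n).2).2)) (by fun_prop), fun y hy => ?_⟩
  rw [pR_iff] at hy
  obtain ⟨⟨h1, h2, h3⟩, h4⟩ := hy
  have h5 : y.1.1 ≤ x.1.1 := by
    rcases h4 with h4 | ⟨e, _⟩
    · rcases h4 with h4 | ⟨e, _⟩
      · exact h4.le
      · exact e.le
    · rw [e]
  obtain ⟨n1, hn1⟩ := hf _ h5
  obtain ⟨n2, hn2⟩ := hf _ (h1.trans h5)
  obtain ⟨n3, hn3⟩ := hf _ (h2.trans h5)
  obtain ⟨n4, hn4⟩ := hf _ (h3.trans h5)
  obtain ⟨a, ha⟩ := hu (n1, n2)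
  obtain ⟨b, hb⟩ := hu (n3, n4)
  obtain ⟨c, hc⟩ := hu (b, y.2)
  obtain ⟨d, hd⟩ := hu (a, c)
  refine ⟨d, ?_⟩
  show ((f (u (u d).1).1, f (u (u d).1).2, f (u (u (u d).2).1).1,
    f (u (u (u d).2).1).2), (u (u d).2).2) = y
  rw [hd]
  show ((f (u a).1, f (u a).2, f (u (u c).1).1, f (u (u c).1).2), (u c).2) = y
  rw [hc, ha]
  show ((f n1, f n2, f (u b).1, f (u b).2), y.2) = y
  rw [hb]
  show ((f n1, f n2, f n3, f n4), y.2) = y
  rw [hn1, hn2, hn3, hn4]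

/-- Existence of the function `k` into the closure points of `f`. -/
theorem exists_KK [AD M] (f : Fn M) : ∃ k, KK (CP f) k := by
  obtain ⟨e, he1, he2, he3⟩ := exists_enum f
  have hr : ∀ x, Rkd (W M) (pR M) x := rkd_of_countable pR_trans pR_wf pR_cnt
  have hlt : ∀ {x y}, pR M (x, y) → rk (W M) (pR M) x < rk (W M) (pR M) y := fun {x y} h =>
    rk_lt (hr y) h
  -- the rank of a position is at least its block
  have hge : ∀ x : Ps M, x.1 ≤ rk (W M) (pR M) (x, 0) := by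
    by_contra hcon
    push Not at hcon
    obtain ⟨c, ⟨x, rfl, hx⟩, hmin⟩ := IWO.least (M := M) (fun c : W M => ∃ x : Ps M, x.1 = c ∧
      rk (W M) (pR M) (x, 0) < x.1) (by fun_prop) (by
        obtain ⟨x, hx⟩ := hcon
        exact ⟨_, x, rfl, hx⟩)
    refine not_lt.2 (hmin (rk (W M) (pR M) (x, 0))
      ⟨(rk (W M) (pR M) (x, 0), w0 M, w0 M, w0 M), rfl, hlt ?_⟩) hx
    rw [pR_iff]
    exact ⟨⟨w0_le _, w0_le _, w0_le _⟩, Or.inl (Or.inl hx)⟩
  have hk' : IF M (fun q : Ps M × N M => e (rk (W M) (pR M) (q.1, sc q.2))) := by fun_prop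
  have hk : IF M (fun x : Ps M => lst M (fun b : W M => ∀ m : N M,
      e (rk (W M) (pR M) (x, sc m)) ≤ b)) := by fun_prop
  have hinc : ∀ x : Ps M, pok x → ∀ m, e (rk (W M) (pR M) (x, sc m)) <
      e (rk (W M) (pR M) (x, sc (sc m))) := fun x hx m =>
    he3 _ _ (hlt (pR_iff.2 ⟨hx, Or.inr ⟨rfl, N.lt_sc_self _⟩⟩))
  have hsup : ∀ x : Ps M, ∀ m, e (rk (W M) (pR M) (x, sc m)) ≤
      lst M (fun b : W M => ∀ m : N M, e (rk (W M) (pR M) (x, sc m)) ≤ b) := by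
    intro x
    refine lst_spec (P := fun b : W M => ∀ m : N M, e (rk (W M) (pR M) (x, sc m)) ≤ b)
      (by fun_prop) ?_
    obtain ⟨b, hb⟩ := W_seq (lam (fun m : N M => e (rk (W M) (pR M) (x, sc m))) (by fun_prop))
    exact ⟨b, fun m => (hb m).le⟩
  have hcof : ∀ x : Ps M, ∀ b, b < lst M (fun b : W M => ∀ m : N M,
      e (rk (W M) (pR M) (x, sc m)) ≤ b) → ∃ m, b < e (rk (W M) (pR M) (x, sc m)) := by
    intro x b hb
    by_contra h
    push Not at h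
    exact not_le.2 hb (lst_le (P := fun b : W M => ∀ m : N M,
      e (rk (W M) (pR M) (x, sc m)) ≤ b) (by fun_prop) h)
  refine ⟨⟨_, hk⟩, ⟨_, hk'⟩, fun x hx => ?_⟩
  have hx0 : rk (W M) (pR M) (x, 0) < rk (W M) (pR M) (x, sc 0) :=
    hlt (pR_iff.2 ⟨hx, Or.inr ⟨rfl, N.lt_sc_self _⟩⟩)
  have hltk : ∀ m, e (rk (W M) (pR M) (x, sc m)) <
      lst M (fun b : W M => ∀ m : N M, e (rk (W M) (pR M) (x, sc m)) ≤ b) := fun m =>
    (hinc x hx m).trans_le (hsup x _)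
  refine ⟨?_, hinc x hx, hltk, hcof x, ⟨⟨_, hltk 0⟩, fun b hb => ?_⟩, fun y hy hyx => ?_⟩
  · show x.1 < e (rk (W M) (pR M) (x, sc 0))
    exact (hge x).trans_lt (hx0.trans_le (he2 _))
  · obtain ⟨m, hm⟩ := hcof x b hb
    exact ((he1 _).2 b hm).trans (hltk m)
  · show lst M (fun b : W M => ∀ m : N M, e (rk (W M) (pR M) (y, sc m)) ≤ b) <
      e (rk (W M) (pR M) (x, sc 0))
    refine lt_of_le_of_lt ?_ (he3 _ _ hx0)
    refine lst_le (P := fun b : W M => ∀ m : N M, e (rk (W M) (pR M) (y, sc m)) ≤ b)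
      (by fun_prop) fun m => (he3 _ _ (hlt (pR_iff.2 ⟨hy, Or.inl hyx⟩))).le

/-! ### the realization lemma -/

theorem AE.all_le (hE : EvAx M) {n : N M} {Q : W M → W M → Prop}
    (hQ : IF M (fun q : W M × W M => Q q.1 q.2)) (b : W M) (h : ∀ c, c ≤ b → AE n (Q c)) :
    AE n (fun t => ∀ c, c ≤ b → Q c t) := by
  obtain ⟨f, hf⟩ := exists_cov_W b
  have hQ1 : IF M (fun q : N M × W M => Q (f q.1) q.2) :=
    hQ.comp (g := fun q : N M × W M => (f q.1, q.2)) (by fun_prop)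
  have hQ2 : ∀ c, IF M (fun t : W M => Q c t) := fun c =>
    hQ.comp (g := fun t : W M => (c, t)) (by fun_prop)
  have hQ3 : IF M (fun q : W M × W M => Q q.2 q.1) :=
    hQ.comp (g := fun q : W M × W M => (q.2, q.1)) (by fun_prop)
  have h1 : AE n (fun t => ∀ k : N M, f k ≤ b → Q (f k) t) := by
    refine AE.all_nat hE (Q := fun k t => f k ≤ b → Q (f k) t) (by fun_prop) fun k => ?_
    by_cases hk : f k ≤ b
    · exact AE.mono (hQ2 _) ((IF.const _).imp (hQ2 _)) (fun t ht _ => ht) (h _ hk)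
    · exact AE.of_forall ((IF.const _).imp (hQ2 _)) fun t hk' => (hk hk').elim
  refine AE.mono ?_ (by fun_prop) (fun t ht c hc => ?_) h1
  · have hQ4 : IF M (fun q : W M × N M => Q (f q.2) q.1) :=
      hQ.comp (g := fun q : W M × N M => (f q.2, q.1)) (by fun_prop)
    fun_prop
  · obtain ⟨k, rfl⟩ := hf c hc
    exact ht k hc

theorem evAx_ad [AD M] : EvAx M where
  dich hQ := Ev.dich hQ
  ex h := by
    obtain ⟨a, _, ha⟩ := h.exists_gt (w0 M)
    exact ⟨a, ha⟩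
  all_nat hQ h := Ev.all_nat hQ h

section
variable (N0 : N M) (al : IFun M (N M) (W M)) (zf : IFun M (N M × W M) (Fn M))

/-- the values are increasing and at most `c` -/
def GdR (n : N M) (t c : W M) : Prop :=
  (∀ i j, i < j → j < al n → zf (n, i) (pw t c) < zf (n, j) (pw t c)) ∧
    ∀ i, i < al n → zf (n, i) (pw t c) ≤ c

/-- the special slots -/
def Sp (w : W M) : Prop := ∃ n t i, n < N0 ∧ i < al n ∧ w = tri n t i

@[fun_prop] theorem IF.GdR {n : α → N M} {t c : α → W M} (hn : IF M n) (ht : IF M t)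
    (hc : IF M c) : IF M (fun x => GdR al zf (n x) (t x) (c x)) := by
  unfold MG.GdR; fun_prop

@[fun_prop] theorem IF.Sp {w : α → W M} (hw : IF M w) : IF M (fun x => Sp N0 al (w x)) := by
  unfold MG.Sp; fun_prop

open Classical in
/-- the third coordinate of the position of a slot -/
noncomputable def vv (c w : W M) : W M :=
  if Sp N0 al w then lst M (fun v => ∃ n t i, w = tri n t i ∧
    ((GdR al zf n t c ∧ v = zf (n, i) (pw t c)) ∨ (¬ GdR al zf n t c ∧ v = i))) else c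

open Classical in
/-- the fourth coordinate of the position of a slot -/
noncomputable def uu (w : W M) : W M := if Sp N0 al w then w0 M else k2 w

@[fun_prop] theorem IF.vv {c w : α → W M} (hc : IF M c) (hw : IF M w) :
    IF M (fun x => vv N0 al zf (c x) (w x)) := by
  unfold MG.vv; fun_prop

@[fun_prop] theorem IF.uu {w : α → W M} (hw : IF M w) : IF M (fun x => uu N0 al (w x)) := by
  unfold MG.uu; fun_prop

/-- the position of a slot -/
noncomputable def ps (c w : W M) : Ps M := (c, k1 w, vv N0 al zf c w, uu N0 al w)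

@[fun_prop] theorem IF.ps {c w : α → W M} (hc : IF M c) (hw : IF M w) :
    IF M (fun x => ps N0 al zf (c x) (w x)) := by
  unfold MG.ps; fun_prop

variable {N0 al zf}

theorem tri_inj {n n' : N M} {t t' i i' : W M} (h : tri n t i = tri n' t' i') :
    n = n' ∧ t = t' ∧ i = i' := by
  obtain ⟨h1, h2⟩ := pw_inj h
  obtain ⟨h3, h4⟩ := pw_inj h1
  exact ⟨nat_inj h3, h4, h2⟩

theorem vv_good {n : N M} {t i c : W M} (hn : n < N0) (hi : i < al n) (h : GdR al zf n t c) :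
    vv N0 al zf c (tri n t i) = zf (n, i) (pw t c) := by
  unfold vv
  rw [if_pos ⟨n, t, i, hn, hi, rfl⟩]
  obtain ⟨n', t', i', h1, h2⟩ := lst_spec (P := fun v => ∃ n' t' i', tri n t i = tri n' t' i' ∧
    ((GdR al zf n' t' c ∧ v = zf (n', i') (pw t' c)) ∨ (¬ GdR al zf n' t' c ∧ v = i')))
    (by fun_prop) ⟨_, n, t, i, rfl, Or.inl ⟨h, rfl⟩⟩
  obtain ⟨rfl, rfl, rfl⟩ := tri_inj h1
  rcases h2 with h2 | h2
  · exact h2.2
  · exact (h2.1 h).elim

theorem vv_bad {n : N M} {t i c : W M} (hn : n < N0) (hi : i < al n) (h : ¬ GdR al zf n t c) :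
    vv N0 al zf c (tri n t i) = i := by
  unfold vv
  rw [if_pos ⟨n, t, i, hn, hi, rfl⟩]
  obtain ⟨n', t', i', h1, h2⟩ := lst_spec (P := fun v => ∃ n' t' i', tri n t i = tri n' t' i' ∧
    ((GdR al zf n' t' c ∧ v = zf (n', i') (pw t' c)) ∨ (¬ GdR al zf n' t' c ∧ v = i')))
    (by fun_prop) ⟨_, n, t, i, rfl, Or.inr ⟨h, rfl⟩⟩
  obtain ⟨rfl, rfl, rfl⟩ := tri_inj h1
  rcases h2 with h2 | h2
  · exact (h h2.1).elim
  · exact h2.2

theorem vv_not {c w : W M} (h : ¬ Sp N0 al w) : vv N0 al zf c w = c := by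
  unfold vv; rw [if_neg h]
theorem uu_sp {w : W M} (h : Sp N0 al w) : uu N0 al w = w0 M := by
  unfold uu; rw [if_pos h]
theorem uu_not {w : W M} (h : ¬ Sp N0 al w) : uu N0 al w = k2 w := by
  unfold uu; rw [if_neg h]

theorem vv_le {c w : W M} (hw : k2 w ≤ c) : vv N0 al zf c w ≤ c := by
  by_cases h : Sp N0 al w
  · obtain ⟨n, t, i, hn, hi, rfl⟩ := h
    by_cases hg : GdR al zf n t c
    · rw [vv_good hn hi hg]
      exact hg.2 i hi
    · rw [vv_bad hn hi hg]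
      have h1 : k2 (tri n t i) = i := k2_pw _ _
      rwa [h1] at hw
  · rw [vv_not h]

theorem k1_le {c w : W M} (hc : Clo c) (hc' : ∀ a b, pw a b < c → a < c ∧ b < c) (hw : w < c) :
    k1 w ≤ c := by
  by_cases h : ∃ a b, pw a b = w
  · obtain ⟨a, b, rfl⟩ := h
    rw [k1_pw]
    exact (hc.2.1 _ (hc' _ _ hw).1).le
  · rw [k1_of_not h]
    exact w0_le _

theorem k2_le {c w : W M} (hc' : ∀ a b, pw a b < c → a < c ∧ b < c) (hw : w < c) :
    k2 w ≤ c := by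
  by_cases h : ∃ a b, pw a b = w
  · obtain ⟨a, b, rfl⟩ := h
    rw [k2_pw]
    exact (hc' _ _ hw).2.le
  · rw [k2_of_not h]
    exact hw.le

theorem pok_ps {c w : W M} (hc : Clo c) (hc' : ∀ a b, pw a b < c → a < c ∧ b < c)
    (hw : w < c) : pok (ps N0 al zf c w) := by
  refine ⟨k1_le hc hc' hw, vv_le (k2_le hc' hw), ?_⟩
  show uu N0 al w ≤ c
  by_cases h : Sp N0 al w
  · rw [uu_sp h]; exact w0_le _
  · rw [uu_not h]; exact k2_le hc' hw

theorem plt_ps {c w w' : W M} (hc' : ∀ a b, pw a b < c → a < c ∧ b < c)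
    (hw : w < c) (h : lo0 M (w, w')) : plt (ps N0 al zf c w) (ps N0 al zf c w') := by
  rw [lo0_iff] at h
  refine Or.inr ⟨rfl, ?_⟩
  rcases h with h | ⟨h, h'⟩
  · exact Or.inl h
  refine Or.inr ⟨h, ?_⟩
  show vv N0 al zf c w < vv N0 al zf c w' ∨ (vv N0 al zf c w = vv N0 al zf c w' ∧
    uu N0 al w < uu N0 al w')
  by_cases hs' : Sp N0 al w'
  · obtain ⟨n, t, i, hn, hi, rfl⟩ := hs'
    -- then `w` is special, too
    have e1 : k1 (tri n t i) = sW (pw (nat n) t) := k1_pw _ _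
    have e2 : k2 (tri n t i) = i := k2_pw _ _
    rw [e1] at h
    rw [e2] at h'
    have hp : ∃ a b, pw a b = w := by
      by_contra hp
      rw [k1_of_not hp] at h
      exact sW_ne _ h.symm
    obtain ⟨a, b, rfl⟩ := hp
    rw [k1_pw] at h
    rw [k2_pw] at h'
    obtain rfl : a = pw (nat n) t := sW_inj h
    left
    by_cases hg : GdR al zf n t c
    · rw [show pw (pw (nat n) t) b = tri n t b from rfl, vv_good hn (h'.trans hi) hg,
        vv_good hn hi hg]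
      exact hg.1 b i h' hi
    · rw [show pw (pw (nat n) t) b = tri n t b from rfl, vv_bad hn (h'.trans hi) hg,
        vv_bad hn hi hg]
      exact h'
  · rw [vv_not hs', uu_not hs']
    rcases lt_or_eq_of_le (vv_le (N0 := N0) (al := al) (zf := zf) (k2_le hc' hw)) with h1 | h1
    · exact Or.inl h1
    · refine Or.inr ⟨h1, ?_⟩
      by_cases hs : Sp N0 al w
      · rw [uu_sp hs]
        exact (w0_le _).trans_lt h'
      · rw [uu_not hs]
        exact h'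

theorem ae_gd [AD M] {n : N M}
    (h1 : ∀ i j, i < j → j < al n → ltn (sc n) (zf (n, i)) (zf (n, j)))
    (h2 : ∀ i, i < al n → len (sc n) (zf (n, i)) (top M)) :
    AE n (fun t => Ev (fun c => GdR al zf n t c)) := by
  have h3 : AE (sc n) (fun w => ∀ i, i ≤ al n → ∀ j, j ≤ al n → i < j → j < al n →
      zf (n, i) w < zf (n, j) w) := by
    refine AE.all_le evAx_ad (Q := fun i w => ∀ j, j ≤ al n → i < j → j < al n →
      zf (n, i) w < zf (n, j) w) (by fun_prop) _ fun i hi => ?_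
    refine AE.all_le evAx_ad (Q := fun j w => i < j → j < al n →
      zf (n, i) w < zf (n, j) w) (by fun_prop) _ fun j hj => ?_
    by_cases hij : i < j ∧ j < al n
    · exact AE.mono (by fun_prop) (by fun_prop) (fun w hw _ _ => hw) (h1 i j hij.1 hij.2)
    · exact AE.of_forall (by fun_prop) fun w ha hb => (hij ⟨ha, hb⟩).elim
  have h4 : AE (sc n) (fun w => ∀ i, i ≤ al n → i < al n → zf (n, i) w ≤ top M w) := by
    refine AE.all_le evAx_ad (Q := fun i w => i < al n → zf (n, i) w ≤ top M w) (by fun_prop) _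
      fun i hi => ?_
    by_cases hi' : i < al n
    · exact AE.mono (by fun_prop) (by fun_prop) (fun w hw _ => hw) (h2 i hi')
    · exact AE.of_forall (by fun_prop) fun w ha => (hi' ha).elim
  have h5 := AE.and (by fun_prop) (by fun_prop) h3 h4
  rw [AE_sc (by fun_prop)] at h5
  refine AE.mono (by fun_prop) (by fun_prop) (fun t ht => ht.mono fun c hc => ?_) h5
  refine ⟨fun i j hij hj => hc.1 i (hij.trans hj).le j hj.le hij hj, fun i hi => ?_⟩
  have h6 := hc.2 i hi.le hi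
  rwa [top_pw] at h6

end

/-- Realization lemma. -/
theorem realize [AD M] {f : Fn M} {k : IFun M (Ps M) (W M)} (hk : KK (CP f) k) (N0 : N M)
    (al : IFun M (N M) (W M)) (zf : IFun M (N M × W M) (Fn M))
    (h1 : ∀ n i j, n < N0 → i < j → j < al n → ltn (sc n) (zf (n, i)) (zf (n, j)))
    (h2 : ∀ n i, n < N0 → i < al n → len (sc n) (zf (n, i)) (top M)) :
    ∃ G, CT (lo0 M) (CP f) G ∧
      ∀ n i, n < N0 → i < al n → eqn (sc n) (cmp G n i) (hz k n (zf (n, i))) := by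
  obtain ⟨k', hk'⟩ := hk
  have hG : IF M (fun q : W M × W M => k (ps N0 al zf q.1 q.2)) := by fun_prop
  have hg : IF M (fun q : Ix M => k' (ps N0 al zf q.1 q.2.1, q.2.2)) := by fun_prop
  refine ⟨⟨_, hG⟩, ⟨⟨_, hg⟩, ?_⟩, fun n i hn hi => ?_⟩
  · refine (Ev_Clo.and Ev_unpw).mono ?_
    rintro c ⟨hc, hc'⟩ s hs
    obtain ⟨h3, h4, h5, h6, h7, h8⟩ := hk' _ (pok_ps (N0 := N0) (al := al) (zf := zf) hc hc' hs)
    exact ⟨h3, h4, h5, h6, h7, fun s' hs' hl => h8 _ (pok_ps hc hc' hs') (plt_ps hc' hs' hl)⟩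
  · unfold eqn
    rw [AE_sc (by fun_prop)]
    refine AE.mono (by fun_prop) (by fun_prop) (fun t ht => ht.mono fun c hc => ?_)
      (ae_gd (h1 n · · hn) (h2 n · hn))
    rw [cmp_pw, hz_pw]
    show k (ps N0 al zf c (tri n t i)) = _
    unfold ps
    rw [vv_good hn hi hc, uu_sp ⟨n, t, i, hn, hi, rfl⟩]
    have e1 : k1 (tri n t i) = sW (pw (nat n) t) := k1_pw _ _
    rw [e1]

end Pool.Agent.Helper48.MG
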