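import Pool.Agent.Helper95.MG.Sig

/-!
# Block A, module 3a: regularity of `ω_1`, the `Σ¹₁` facts about codes of ordinals
-/

set_option autoImplicit false

namespace Pool.Agent.Helper48.MG

variable {M : Type} [ZFM M]
variable {α β γ δ : Type} [Cl M α] [Cl M β] [Cl M γ] [Cl M δ]

/-- `ω_1` is regular -/
theorem W_seq [AD M] (f : IFun M (N M) (W M)) : ∃ b, ∀ n, f n < b := by
  obtain ⟨Y, hY⟩ := acw (M := M) (lam (fun q : N M × Re M => PWc q.2 (f q.1)) (by fun_prop))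
    fun n => exists_PWc (f n)
  obtain ⟨u, hu⟩ := exists_unpr (M := M)
  have hg : IF M (fun m : N M => rk (W M) (rel (Y (u m).1)) (u m).2) := by fun_prop
  obtain ⟨b, hb⟩ := not_cov_W ⟨_, hg⟩
  refine ⟨b, fun n => ?_⟩
  by_contra hcon
  have h1 : PWc (Y n) (f n) := hY n
  obtain ⟨k, hk⟩ := (h1.rk.2.2.1 b).2 (not_lt.1 hcon)
  obtain ⟨m, hm⟩ := hu (n, k)
  apply hb m
  show rk (W M) (rel (Y (u m).1)) (u m).2 = b
  rw [hm]
  exact hk

theorem W_below [AD M] (f : Fn M) (a : W M) : ∃ b, ∀ c, c ≤ a → f c < b := by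
  obtain ⟨g, hg⟩ := exists_cov_W a
  obtain ⟨b, hb⟩ := W_seq (lam (fun n => f (g n)) (by fun_prop))
  refine ⟨b, fun c hc => ?_⟩
  obtain ⟨n, rfl⟩ := hg c hc
  exact hb n

/-- finite maxima below an ordinal -/
theorem W.exists_max {f : N M → W M} (hf : IF M f) {a : W M} (ha : ∃ b, b < a) (n : N M)
    (h : ∀ k, k < n → f k < a) : ∃ d, d < a ∧ ∀ k, k < n → f k ≤ d := by
  refine N.ind (fun n => (∀ k, k < n → f k < a) → ∃ d, d < a ∧ ∀ k, k < n → f k ≤ d)
    (by fun_prop) ?_ ?_ n h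
  · intro _
    obtain ⟨b, hb⟩ := ha
    exact ⟨b, hb, fun k hk => (N.not_lt_zero k hk).elim⟩
  · intro n ih h
    obtain ⟨d, hd, hd'⟩ := ih fun k hk => h k (hk.trans (N.lt_sc_self n))
    refine ⟨max d (f n), max_lt hd (h n (N.lt_sc_self n)), fun k hk => ?_⟩
    rcases lt_or_eq_of_le (N.lt_sc.1 hk) with hk | rfl
    · exact (hd' k hk).trans (le_max_left _ _)
    · exact le_max_right _ _

/-- a function which respects the relation bounds the ranks -/
theorem RL_of_fun {X : Type} [Cl M X] [Ob M X] {R : IFun M (X × X) Prop} {F : X → W M}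
    (hF : IF M F) (h : ∀ x y, R (x, y) → F x < F y) (x : X) : RL R x (F x) := by
  by_contra hcon
  obtain ⟨a, ⟨y, hy, hy'⟩, hmin⟩ := IWO.least (M := M)
    (fun a : W M => ∃ y, F y = a ∧ ¬ RL R y (F y)) (by fun_prop) ⟨_, x, rfl, hcon⟩
  apply hy'
  refine RL.intro fun z hz => ⟨F z, h z y hz, ?_⟩
  by_contra hz'
  have h1 := hmin (F z) ⟨z, rfl, hz'⟩
  rw [← hy] at h1
  exact not_lt.2 h1 (h z y hz)

theorem wf_le_iff {c r : Re M} {d : W M} (hc : PWc c d) :
    (WF r ∧ nrm r ≤ d) ↔ ∃ x : Re M, ∀ k l, rel r (k, l) → rel c (x k, x l) := by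
  obtain ⟨f, hf, hfd⟩ := hc
  constructor
  · rintro ⟨h1, h2⟩
    have hx : ∀ k, f (lst M (fun m : N M => f m = rk (W M) (rel r) k)) = rk (W M) (rel r) k :=
      fun k => lst_spec (P := fun m : N M => f m = rk (W M) (rel r) k) (by fun_prop)
        ((hfd _).2 ((h1.rk_le_nrm k).trans h2))
    refine ⟨lam (fun k => lst M (fun m : N M => f m = rk (W M) (rel r) k)) (by fun_prop), fun k l h => ?_⟩
    rw [hf]
    show f (lst M (fun m : N M => f m = rk (W M) (rel r) k)) <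
      f (lst M (fun m : N M => f m = rk (W M) (rel r) l))
    rw [hx, hx]
    exact rk_lt (h1 l) h
  · rintro ⟨x, hx⟩
    have h1 : ∀ k, RL (rel r) k (f (x k)) := fun k =>
      RL_of_fun (F := fun k => f (x k)) (by fun_prop) (fun k l h => (hf _ _).1 (hx k l h)) k
    have h2 : WF r := fun k => (h1 k).rkd
    exact ⟨h2, h2.nrm_le_iff.2 fun k => (h1 k).rk_le.trans ((hfd _).1 ⟨_, rfl⟩)⟩

/-- the relations coded by `c` and `r` are isomorphic (for exact codes) -/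
def IsoR (c r : Re M) : Prop :=
  ∃ x : Re M, (∀ k l, rel r (k, l) ↔ rel c (x k, x l)) ∧
    ∀ m, ∃ k, ¬ rel c (x k, m) ∧ ¬ rel c (m, x k)

@[fun_prop] theorem IF.IsoR {f g : α → Re M} (hf : IF M f) (hg : IF M g) :
    IF M (fun x => IsoR (f x) (g x)) := by
  unfold MG.IsoR; fun_prop

theorem isoR_iff {c r : Re M} {s : W M} (hc : PWc c s) : IsoR c r ↔ PWc r s := by
  obtain ⟨f, hf, hfs⟩ := hc
  constructor
  · rintro ⟨x, hx, hx'⟩
    refine ⟨lam (fun k => f (x k)) (by fun_prop), fun k l => (hx k l).trans (hf _ _), fun d => ⟨?_, fun hd => ?_⟩⟩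
    · rintro ⟨k, rfl⟩
      exact (hfs _).1 ⟨x k, rfl⟩
    · obtain ⟨m, rfl⟩ := (hfs d).2 hd
      obtain ⟨k, h1, h2⟩ := hx' m
      rw [hf] at h1 h2
      exact ⟨k, le_antisymm (not_lt.1 h2) (not_lt.1 h1)⟩
  · rintro ⟨g, hg, hgs⟩
    have hx : ∀ k, f (lst M (fun m : N M => f m = g k)) = g k := fun k =>
      lst_spec (P := fun m : N M => f m = g k) (by fun_prop) ((hfs _).2 ((hgs _).1 ⟨k, rfl⟩))
    refine ⟨lam (fun k => lst M (fun m : N M => f m = g k)) (by fun_prop), fun k l => ?_, fun m => ?_⟩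
    · rw [hf, hg]
      show _ ↔ f (lst M (fun m : N M => f m = g k)) < f (lst M (fun m : N M => f m = g l))
      rw [hx, hx]
    · obtain ⟨k, hk⟩ := (hgs (f m)).2 ((hfs _).1 ⟨m, rfl⟩)
      refine ⟨k, ?_⟩
      rw [hf, hf]
      show ¬ f (lst M (fun m : N M => f m = g k)) < f m ∧ ¬ f m < f (lst M (fun m : N M => f m = g k))
      rw [hx, hk]
      exact ⟨lt_irrefl _, lt_irrefl _⟩

section sig

variable [AD M] [Tp M α] [Tp M β]

theorem Sig.isoR {f g : α → Re M} (hf : Ct M f) (hg : Ct M g) :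
    Sig M (fun a => IsoR (f a) (g a)) := by
  unfold IsoR
  refine Sig.exR (Sig.and (Sig.allN (Sig.allN (Sig.ct ?_)))
    (Sig.allN (Sig.ex (β := N M) (Sig.ct ?_))))
  · fun_prop
  · fun_prop

theorem sig_wf_le (d : W M) : Sig M (fun r : Re M => WF r ∧ nrm r ≤ d) := by
  obtain ⟨c, hc⟩ := exists_PWc d
  have h : Sig M (fun r : Re M => ∃ x : Re M, ∀ k l, rel r (k, l) → rel c (x k, x l)) := by
    refine Sig.exR (Sig.allN (Sig.allN (Sig.ct ?_)))
    fun_prop
  exact h.congr fun r => wf_le_iff hc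

theorem sig_pw (d : W M) : Sig M (fun r : Re M => PWc r d) := by
  obtain ⟨c, hc⟩ := exists_PWc d
  exact (Sig.isoR (Ct.const c) Ct.id).congr fun r => (isoR_iff hc).symm

end sig

end Pool.Agent.Helper48.MG
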