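import Pool.Agent.Helper48.MG.Iface
import Pool.Agent.Helper98.MG.BddA

/-!
# MG block B, part 3: the coding of the subsets of `ω_1` by reals
-/

set_option autoImplicit false

namespace Pool.Agent.Helper48.MG

variable {M : Type} [ZFM M]
variable {α β γ δ : Type} [Cl M α] [Cl M β] [Cl M γ] [Cl M δ]

open Classical in
/-- the relation `w` cut at `j`: everything which is not below `j` is replaced by `j` -/
noncomputable def cut (w : Re M) (j : N M) : Re M :=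
  lam (fun m => if rel w (u1 m, j) ∧ (rel w (u2 m, j) → rel w (u1 m, u2 m)) then (0 : N M) else sc 0) (by fun_prop)

@[fun_prop] theorem IF.cut {f : α → Re M} {g : α → N M} (hf : IF M f) (hg : IF M g) :
    IF M (fun x => cut (f x) (g x)) := by
  unfold MG.cut; fun_prop

theorem rel_cut {w : Re M} {j k l : N M} :
    rel (cut w j) (k, l) ↔ rel w (k, j) ∧ (rel w (l, j) → rel w (k, l)) := by
  classical
  show (if rel w (u1 (pr k l), j) ∧ (rel w (u2 (pr k l), j) → rel w (u1 (pr k l), u2 (pr k l)))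
    then (0 : N M) else sc 0) = 0 ↔ _
  rw [u1_pr, u2_pr]
  by_cases h : rel w (k, j) ∧ (rel w (l, j) → rel w (k, l))
  · rw [if_pos h]; exact ⟨fun _ => h, fun _ => rfl⟩
  · rw [if_neg h]; exact ⟨fun h1 => (N.sc_ne_zero _ h1).elim, fun h1 => (h h1).elim⟩

theorem PWc.unique {r : Re M} {b b' : W M} (h : PWc r b) (h' : PWc r b') : b = b' :=
  h.nrm.symm.trans h'.nrm

theorem PWc.cut {w : Re M} {b : W M} (h : PWc w b) (j : N M) :
    PWc (MG.cut w j) (MG.rk (W M) (rel w) j) := by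
  classical
  obtain ⟨_, h1, h2, _⟩ := h.rk
  have hf : IF M (fun k : N M => if MG.rk (W M) (rel w) k < MG.rk (W M) (rel w) j then
    MG.rk (W M) (rel w) k else MG.rk (W M) (rel w) j) := by fun_prop
  refine ⟨⟨_, hf⟩, fun k l => ?_, fun c => ?_⟩
  · rw [rel_cut, h1, h1, h1]
    show _ ↔ (if MG.rk (W M) (rel w) k < MG.rk (W M) (rel w) j then
      MG.rk (W M) (rel w) k else MG.rk (W M) (rel w) j) < (if MG.rk (W M) (rel w) l < MG.rk (W M) (rel w) j then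
      MG.rk (W M) (rel w) l else MG.rk (W M) (rel w) j)
    by_cases hk : MG.rk (W M) (rel w) k < MG.rk (W M) (rel w) j <;>
      by_cases hl : MG.rk (W M) (rel w) l < MG.rk (W M) (rel w) j
    · simp [hk, hl]
    · simp [hk, hl]
    · simp only [hk, hl, if_true, if_false, false_and, false_iff]
      exact not_lt.2 hl.le
    · simp [hk, hl]
  · constructor
    · rintro ⟨k, rfl⟩
      show (if MG.rk (W M) (rel w) k < MG.rk (W M) (rel w) j then
        MG.rk (W M) (rel w) k else MG.rk (W M) (rel w) j) ≤ _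
      split_ifs with hk
      · exact hk.le
      · exact le_rfl
    · intro hc
      rcases lt_or_eq_of_le hc with hc | rfl
      · obtain ⟨k, hk⟩ := (h2 c).2 (hc.le.trans ((h2 _).1 ⟨j, rfl⟩))
        exact ⟨k, by
          show (if MG.rk (W M) (rel w) k < MG.rk (W M) (rel w) j then
            MG.rk (W M) (rel w) k else MG.rk (W M) (rel w) j) = c
          rw [hk, if_pos hc]⟩
      · exact ⟨j, if_neg (lt_irrefl _)⟩

theorem PWc.cut_iff {w : Re M} {b s : W M} (h : PWc w b) (j : N M) :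
    PWc (MG.cut w j) s ↔ MG.rk (W M) (rel w) j = s :=
  ⟨fun h' => (h.cut j).unique h', fun h' => h' ▸ h.cut j⟩

/-! ### the coding -/

/-- `s` is accepted by the code `y` -/
def Acc (y : Re M) (s : W M) : Prop :=
  ∃ r : Re M, PWc r s ∧ ∃ j, PWc (cut (sec (ap2 y r) 0) j) s ∧ (sec (ap2 y r) (sc 0)).toFun j = 0
/-- `s` is rejected by the code `y` -/
def Nac (y : Re M) (s : W M) : Prop :=
  ∃ r : Re M, PWc r s ∧ ∃ j, PWc (cut (sec (ap2 y r) 0) j) s ∧ (sec (ap2 y r) (sc 0)).toFun j ≠ 0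

@[fun_prop] theorem IF.Acc {f : α → Re M} {g : α → W M} (hf : IF M f) (hg : IF M g) :
    IF M (fun x => Acc (f x) (g x)) := by
  unfold MG.Acc; fun_prop
@[fun_prop] theorem IF.Nac {f : α → Re M} {g : α → W M} (hf : IF M f) (hg : IF M g) :
    IF M (fun x => Nac (f x) (g x)) := by
  unfold MG.Nac; fun_prop

/-- the relation coded by `w`, cut at `j`, is isomorphic to the relation coded by `c` -/
def IsoJ (c w : Re M) (j : N M) : Prop :=
  ∃ x : Re M, (∀ k l, (rel w (k, j) ∧ (rel w (l, j) → rel w (k, l))) ↔ rel c (x k, x l)) ∧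
    ∀ m, ∃ k, ¬ rel c (x k, m) ∧ ¬ rel c (m, x k)

theorem isoJ_iff {c w : Re M} {j : N M} {s : W M} (hc : PWc c s) :
    IsoJ c w j ↔ PWc (cut w j) s := by
  rw [← isoR_iff hc]
  unfold IsoJ IsoR
  simp only [rel_cut]

/-- the same with a code `c` of `s` -/
def AccC (c y : Re M) : Prop :=
  ∃ r : Re M, IsoR c r ∧ ∃ j, IsoJ c (sec (ap2 y r) 0) j ∧ (sec (ap2 y r) (sc 0)).toFun j = 0
def NacC (c y : Re M) : Prop :=
  ∃ r : Re M, IsoR c r ∧ ∃ j, IsoJ c (sec (ap2 y r) 0) j ∧ (sec (ap2 y r) (sc 0)).toFun j ≠ 0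

theorem accC_iff {c y : Re M} {s : W M} (hc : PWc c s) : AccC c y ↔ Acc y s := by
  unfold AccC Acc
  simp only [isoR_iff hc, isoJ_iff hc]
theorem nacC_iff {c y : Re M} {s : W M} (hc : PWc c s) : NacC c y ↔ Nac y s := by
  unfold NacC Nac
  simp only [isoR_iff hc, isoJ_iff hc]

theorem exists_codeB [AD M]
    (hbdd : ∀ σ : Re M, (∀ z, WF (ap1 σ z)) → ∃ b, ∀ z, nrm (ap1 σ z) ≤ b)
    (Z : IFun M (W M) Prop) :
    ∃ y : Re M, ∀ s, (Acc y s ∨ Nac y s) ∧ (Acc y s → Z s) ∧ (Nac y s → ¬ Z s) := by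
  classical
  rcases AD.det (M := M) (lam (fun q : Re M × Re M => (∃ s, PWc q.1 s) ∧
      ¬ ∃ b, (∀ s, PWc q.1 s → s ≤ b) ∧ PWc (sec q.2 0) b ∧
        ∀ j, (sec q.2 (sc 0)).toFun j = 0 ↔ Z (rk (W M) (rel (sec q.2 0)) j)) (by fun_prop)) with
    ⟨σ, hσ⟩ | ⟨τ, hτ⟩
  · exfalso
    have h1 : ∀ z, (∃ s, PWc (ap1 σ z) s) ∧
      ¬ ∃ b, (∀ s, PWc (ap1 σ z) s → s ≤ b) ∧ PWc (sec z 0) b ∧
        ∀ j, (sec z (sc 0)).toFun j = 0 ↔ Z (rk (W M) (rel (sec z 0)) j) := hσ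
    obtain ⟨b, hb⟩ := hbdd σ fun z => by
      obtain ⟨s, hs⟩ := (h1 z).1
      exact hs.wf
    obtain ⟨w, hw⟩ := exists_PWc b
    have hv : IF M (fun j : N M => if Z (rk (W M) (rel w) j) then (0 : N M) else sc 0) := by
      fun_prop
    obtain ⟨z, hz0, hz1⟩ := exists_join2 w ⟨_, hv⟩
    apply (h1 z).2
    refine ⟨b, fun s hs => hs.nrm ▸ hb z, by rw [hz0]; exact hw, fun j => ?_⟩
    rw [hz0, hz1]
    show (if Z (rk (W M) (rel w) j) then (0 : N M) else sc 0) = 0 ↔ _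
    by_cases h : Z (rk (W M) (rel w) j)
    · rw [if_pos h]; exact ⟨fun _ => h, fun _ => rfl⟩
    · rw [if_neg h]; exact ⟨fun h1 => (N.sc_ne_zero _ h1).elim, fun h1 => (h h1).elim⟩
  · refine ⟨τ, fun s => ?_⟩
    have h1 : ∀ r, PWc r s → ∃ b, s ≤ b ∧ PWc (sec (ap2 τ r) 0) b ∧
        ∀ j, (sec (ap2 τ r) (sc 0)).toFun j = 0 ↔ Z (rk (W M) (rel (sec (ap2 τ r) 0)) j) := by
      intro r hr
      have h2 : ¬ ((∃ s, PWc r s) ∧ ¬ ∃ b, (∀ s, PWc r s → s ≤ b) ∧ PWc (sec (ap2 τ r) 0) b ∧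
        ∀ j, (sec (ap2 τ r) (sc 0)).toFun j = 0 ↔ Z (rk (W M) (rel (sec (ap2 τ r) 0)) j)) := hτ r
      have h3 := not_not.1 fun h => h2 ⟨⟨s, hr⟩, h⟩
      obtain ⟨b, hb, h4, h5⟩ := h3
      exact ⟨b, hb s hr, h4, h5⟩
    refine ⟨?_, ?_, ?_⟩
    · obtain ⟨r, hr⟩ := exists_PWc s
      obtain ⟨b, hb, hw, _⟩ := h1 r hr
      obtain ⟨j, hj⟩ := (hw.rk.2.2.1 s).2 hb
      by_cases h : (sec (ap2 τ r) (sc 0)).toFun j = 0
      · exact Or.inl ⟨r, hr, j, (hw.cut_iff j).2 hj, h⟩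
      · exact Or.inr ⟨r, hr, j, (hw.cut_iff j).2 hj, h⟩
    · rintro ⟨r, hr, j, hj, hv⟩
      obtain ⟨b, _, hw, hZ⟩ := h1 r hr
      have h2 := (hZ j).1 hv
      rwa [(hw.cut_iff j).1 hj] at h2
    · rintro ⟨r, hr, j, hj, hv⟩ h
      obtain ⟨b, _, hw, hZ⟩ := h1 r hr
      apply hv
      rw [hZ j, (hw.cut_iff j).1 hj]
      exact h

/-! ### definability -/

section sig

variable [AD M] [Tp M α] [Tp M β]

theorem Sig.isoJ {f g : α → Re M} {j : α → N M} (hf : Ct M f) (hg : Ct M g) (hj : Ct M j) :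
    Sig M (fun a => IsoJ (f a) (g a) (j a)) := by
  unfold IsoJ
  refine Sig.exR (Sig.and (Sig.allN (Sig.allN (Sig.ct ?_)))
    (Sig.allN (Sig.ex (β := N M) (Sig.ct ?_))))
  · fun_prop
  · fun_prop

theorem Sig.accC : Sig M (fun q : Re M × Re M => AccC q.1 q.2) := by
  unfold AccC
  refine Sig.exR (Sig.and (Sig.isoR (by fun_prop) (by fun_prop)) (Sig.ex (β := N M) (Sig.and
    (Sig.isoJ (by fun_prop) (by fun_prop) (by fun_prop)) (Sig.ct ?_))))
  fun_prop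

theorem Sig.nacC : Sig M (fun q : Re M × Re M => NacC q.1 q.2) := by
  unfold NacC
  refine Sig.exR (Sig.and (Sig.isoR (by fun_prop) (by fun_prop)) (Sig.ex (β := N M) (Sig.and
    (Sig.isoJ (by fun_prop) (by fun_prop) (by fun_prop)) (Sig.ct ?_))))
  fun_prop

theorem Sig.acc (s : W M) : Sig M (fun y : Re M => Acc y s) := by
  obtain ⟨c, hc⟩ := exists_PWc s
  have h : Sig M (fun y : Re M => AccC c y) :=
    Sig.accC.comp (f := fun y : Re M => (c, y)) (by fun_prop)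
  exact h.congr fun y => (accC_iff hc).symm

theorem Sig.nac (s : W M) : Sig M (fun y : Re M => Nac y s) := by
  obtain ⟨c, hc⟩ := exists_PWc s
  have h : Sig M (fun y : Re M => NacC c y) :=
    Sig.nacC.comp (f := fun y : Re M => (c, y)) (by fun_prop)
  exact h.congr fun y => (nacC_iff hc).symm

end sig

/-- the coding of the subsets of `ω_1` -/
theorem exists_coding' [AD M]
    (hbdd : ∀ σ : Re M, (∀ z, WF (ap1 σ z)) → ∃ b, ∀ z, nrm (ap1 σ z) ≤ b)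
    (htree : ∃ T : Re M × Re M → Re M, Ct M T ∧
      ∀ a, (AccC a.1 a.2 ∧ NacC a.1 a.2) ↔ ¬ WF (T a)) :
    Nonempty (Coding M) := by
  classical
  obtain ⟨T, hT, hT'⟩ := htree
  have hTI : IF M T := hT.1
  have hok : IF M (fun q : Re M × W M =>
      (Acc q.1 q.2 ∨ Nac q.1 q.2) ∧ ¬ (Acc q.1 q.2 ∧ Nac q.1 q.2)) := by fun_prop
  have hacc : IF M (fun q : Re M × W M => Acc q.1 q.2) := by fun_prop
  have hnac : IF M (fun q : Re M × W M => Nac q.1 q.2) := by fun_prop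
  have hcert : IF M (fun q : Re M × W M × W M => (Acc q.1 q.2.1 ∨ Nac q.1 q.2.1) ∧
      ∃ c : Re M, PWc c q.2.1 ∧ WF (T (c, q.1)) ∧ nrm (T (c, q.1)) ≤ q.2.2) := by fun_prop
  refine ⟨⟨⟨_, hok⟩, ⟨_, hacc⟩, ⟨_, hnac⟩, ⟨_, hcert⟩, fun y s => ?_, fun y s d d' hd h => ?_,
    fun y s h => ?_, fun s d => ?_, fun s => Sig.acc s, fun s => Sig.nac s, fun Z => ?_⟩⟩
  · show ((Acc y s ∨ Nac y s) ∧ ¬ (Acc y s ∧ Nac y s)) ↔ ∃ d, (Acc y s ∨ Nac y s) ∧
      ∃ c : Re M, PWc c s ∧ WF (T (c, y)) ∧ nrm (T (c, y)) ≤ d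
    constructor
    · rintro ⟨h1, h2⟩
      obtain ⟨c, hc⟩ := exists_PWc s
      refine ⟨nrm (T (c, y)), h1, c, hc, ?_, le_rfl⟩
      by_contra h3
      have h4 := (hT' (c, y)).2 h3
      exact h2 ⟨(accC_iff hc).1 h4.1, (nacC_iff hc).1 h4.2⟩
    · rintro ⟨d, h1, c, hc, h2, -⟩
      exact ⟨h1, fun h3 => (hT' (c, y)).1 ⟨(accC_iff hc).2 h3.1, (nacC_iff hc).2 h3.2⟩ h2⟩
  · obtain ⟨h1, c, hc, h2, h3⟩ := h
    exact ⟨h1, c, hc, h2, h3.trans hd⟩
  · have h' : (Acc y s ∨ Nac y s) ∧ ¬ (Acc y s ∧ Nac y s) := h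
    show Nac y s ↔ ¬ Acc y s
    tauto
  · show Sig M (fun y : Re M => (Acc y s ∨ Nac y s) ∧
      ∃ c : Re M, PWc c s ∧ WF (T (c, y)) ∧ nrm (T (c, y)) ≤ d)
    refine Sig.and (Sig.or (Sig.acc s) (Sig.nac s)) (Sig.exR (Sig.and ?_ ?_))
    · exact (sig_pw s).comp (f := fun q : Re M × Re M => q.2) (by fun_prop)
    · exact (sig_wf_le d).comp (f := fun q : Re M × Re M => T (q.2, q.1)) (by fun_prop)
  · obtain ⟨y, hy⟩ := exists_codeB hbdd Z
    refine ⟨y, fun s => ?_⟩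
    obtain ⟨h1, h2, h3⟩ := hy s
    show ((Acc y s ∨ Nac y s) ∧ ¬ (Acc y s ∧ Nac y s)) ∧ (Acc y s ↔ Z s)
    tauto

end Pool.Agent.Helper48.MG
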