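import Pool.Agent.Helper98.MG.Rep
import Pool.Agent.Helper98.MG.Cod

/-!
# MG block B: the final statements
-/

set_option autoImplicit false

namespace Pool.Agent.Helper48.MG

variable {M : Type} [ZFM M] [AD M]

/-- subsets of `ω_1` are coded by reals -/
theorem exists_coding : Nonempty (Coding M) := by
  refine exists_coding' (fun σ hσ => ?_) ?_
  · obtain ⟨b, hb⟩ := bdd (M := M) (P := fun _ : Re M => True) (f := fun z : Re M => ap1 σ z)
      (Sig.ct (Ct.const _)) (by fun_prop) fun z _ => hσ z
    exact ⟨b, fun z => hb z trivial⟩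
  · exact Sig.tree (P := fun q : Re M × Re M => AccC q.1 q.2 ∧ NacC q.1 q.2)
      (Sig.and Sig.accC Sig.nacC)

/-- representation of functions by ranks -/
theorem exists_rep (g : IFun M (W M × W M) (W M)) :
    ∃ Z : IFun M (W M × W M) Prop, IWf Z ∧
      Ev (fun c => ∀ s, s < c → rk (W M) (restr Z c) (nd s) = g (c, s)) :=
  exists_rep' dom W_below Ev_Clo (fun f h => Ev.press (f := fun a => f a) (by fun_prop) h)
    (fun Q h => Ev.normal (Q := fun s c => Q (s, c)) (by fun_prop) h) g

/-- the functions of `n + 1` variables below a given one are coded by a real and the functions of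
`n` variables (the field `kf` of `CIn`) -/
theorem exists_kf : ∃ kf : Re M → Fn M → Fn M, IF M (fun q : Re M × Fn M => kf q.1 q.2) ∧
    (∀ n y t t', eqn n t t' → eqn (sc n) (kf y t) (kf y t')) ∧
    ∀ n (h : Fn M), ∃ y, ∀ f, ltn (sc n) f h → ∃ t, eqn (sc n) f (kf y t) := by
  refine ⟨fun y t => kf (Ku y) t, by fun_prop, fun n y t t' h => kf_congr h, fun n h => ?_⟩
  obtain ⟨y, _, hy⟩ := exists_kf' dom W_below Ev_Clo
    (fun f h => Ev.press (f := fun a => f a) (by fun_prop) h) h
  exact ⟨y, hy n⟩

end Pool.Agent.Helper48.MG
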