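import Pool.Agent.Helper95.MG.Sig

/-!
# Block A, module 3b: descending sequences and branches
-/

set_option autoImplicit false

namespace Pool.Agent.Helper48.MG

variable {M : Type} [ZFM M]

/-- a relation on `N` which is not wellfounded has a descending sequence -/
theorem exists_desc {R : IFun M (N M × N M) Prop} (h : ¬ IWf R) :
    ∃ t : IFun M (N M) (N M), ∀ j, R (t (sc j), t j) := by
  unfold IWf at h
  push Not at h
  obtain ⟨P, ⟨x, hx⟩, hP⟩ := h
  obtain ⟨f, hf, h0, hs⟩ := N.exists_rec (M := M) (γ := Unit) (β := N M) (fun _ => x)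
    (fun _ _ y => lst M (fun z => R (z, y) ∧ P z)) (by fun_prop) (by fun_prop)
  have hf' : IF M (fun n : N M => f () n) := hf.comp (g := fun n : N M => ((), n)) (by fun_prop)
  have h1 : ∀ j, P (f () j) := by
    refine N.ind _ (by fun_prop) ?_ ?_
    · rw [h0]; exact hx
    · intro j ih
      rw [hs]
      exact (lst_spec (P := fun z => R (z, f () j) ∧ P z) (by fun_prop) (hP _ ih)).2
  refine ⟨⟨_, hf'⟩, fun j => ?_⟩
  show R (f () (sc j), f () j)
  rw [hs]
  exact (lst_spec (P := fun z => R (z, f () j) ∧ P z) (by fun_prop) (hP _ (h1 j))).1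

/-- the limit of a sequence of finite pieces of reals -/
theorem exists_branch (t : IFun M (N M) (N M))
    (h : ∀ j, ∃ (w : Re M) (m : N M), t j = cd w m ∧ t (sc j) = cd w (sc m)) :
    ∃ w : Re M, (∀ j, ∃ m, t j = cd w m) ∧ ∀ n, ∃ j m, n ≤ m ∧ t j = cd w m := by
  have hA : ∀ j', ∀ j, j ≤ j' → ∀ (w w' : Re M) (m m' : N M), t j = cd w m → t j' = cd w' m' →
      m ≤ m' ∧ ∀ k, k < m → w k = w' k := by
    refine N.ind _ (by fun_prop) ?_ ?_
    · intro j hj w w' m m' h1 h2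
      have h3 : j = 0 := le_antisymm hj (N.zero_le j)
      subst h3
      obtain ⟨rfl, h5⟩ := cd_eq_iff.1 (h1.symm.trans h2)
      exact ⟨le_rfl, h5⟩
    · intro j' ih j hj w w' m m' h1 h2
      rcases lt_or_eq_of_le hj with hj | rfl
      · obtain ⟨w0, m0, h3, h4⟩ := h j'
        obtain ⟨rfl, h6⟩ := cd_eq_iff.1 (h4.symm.trans h2)
        obtain ⟨h7, h8⟩ := ih j (N.lt_sc.1 hj) w w0 m m0 h1 h3
        have h9 := N.lt_sc_self m0
        exact ⟨h7.trans h9.le, fun k hk => (h8 k hk).trans (h6 k (hk.trans_le (h7.trans h9.le)))⟩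
      · obtain ⟨rfl, h5⟩ := cd_eq_iff.1 (h1.symm.trans h2)
        exact ⟨le_rfl, h5⟩
  have hB : ∀ j, ∀ (w : Re M) (m : N M), t j = cd w m → j ≤ m := by
    refine N.ind _ (by fun_prop) (fun _ m _ => N.zero_le m) ?_
    intro j ih w m h1
    obtain ⟨w0, m0, h3, h4⟩ := h j
    obtain ⟨rfl, _⟩ := cd_eq_iff.1 (h4.symm.trans h1)
    rw [N.sc_le, N.lt_sc]
    exact ih w0 m0 h3
  have hw : ∀ j, ∀ (w0 : Re M) (m0 : N M), t j = cd w0 m0 → t j =
      cd (lam (fun n => lst M (fun k => ∃ (j m : N M) (w : Re M), t j = cd w m ∧ n < m ∧ w n = k)) (by fun_prop))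
        m0 := by
    intro j w0 m0 h1
    rw [h1, cd_eq]
    intro n hn
    obtain ⟨j1, m1, w1, h2, h3, h4⟩ := lst_spec (P := fun k => ∃ (j m : N M) (w : Re M),
      t j = cd w m ∧ n < m ∧ w n = k) (by fun_prop) ⟨_, j, m0, w0, h1, hn, rfl⟩
    show w0 n = lst M (fun k => ∃ (j m : N M) (w : Re M), t j = cd w m ∧ n < m ∧ w n = k)
    rw [← h4]
    rcases le_total j j1 with h5 | h5
    · exact (hA j1 j h5 w0 w1 m0 m1 h1 h2).2 n hn
    · exact ((hA j j1 h5 w1 w0 m1 m0 h2 h1).2 n h3).symm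
  refine ⟨lam (fun n => lst M (fun k => ∃ (j m : N M) (w : Re M), t j = cd w m ∧ n < m ∧ w n = k)) (by fun_prop),
    fun j => ?_, fun n => ?_⟩
  · obtain ⟨w0, m0, h1, _⟩ := h j
    exact ⟨m0, hw j w0 m0 h1⟩
  · obtain ⟨w0, m0, h1, _⟩ := h n
    exact ⟨n, m0, hB n w0 m0 h1, hw n w0 m0 h1⟩

end Pool.Agent.Helper48.MG
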